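import Pool.Agent.R244.WGF.Stm

namespace Pool.Agent.R244.WGF

open MeasureTheory Set Metric Topology Filter
open scoped ENNReal NNReal Classical

/-- The set of good functions. -/
def Gd (b : ℕ) (α : ℝ) (q m : ℕ) (s : ℝ) : Set Lip :=
  {g : Lip | ∀ K R₀ : ℕ, SS b α q m s K R₀ g.1 < ⊤}

theorem ac_scale {μ : Measure ℝ} {F : ℝ → ℝ} (hF : Measurable F) {a : ℝ} (ha : a ≠ 0)
    (h : μ.map F ≪ volume) : μ.map (fun x => a * F x) ≪ volume := by
  have h1 : μ.map (fun x => a * F x) = (μ.map F).map (fun y => a * y) := by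
    rw [Measure.map_map (measurable_const_mul a) hF]
    rfl
  rw [h1]
  refine (h.map (measurable_const_mul a)).trans ?_
  refine Measure.AbsolutelyContinuous.mk fun N hN hN0 => ?_
  rw [Measure.map_apply (measurable_const_mul a) hN, Real.volume_preimage_mul_left ha, hN0,
    mul_zero]

theorem good_ac {b : ℕ} {α : ℝ} {q m : ℕ} {s : ℝ} (hb : 2 ≤ b) (hα : 0 < α) (hm : 1 ≤ m)
    (hs : 1 / 2 < s) (hSq : S_SQ) (hAC : S_AC) (hE : S_EK) (hW : S_WB) {g : Lip}
    (hg : g ∈ Gd b α q m s) (t : ℝ) :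
    (volume.restrict (Ico (0 : ℝ) 1)).map (fun x => W b α g.1 x + t * x) ≪ volume := by
  have hWc : Continuous (W b α g.1) := (hW b α hb hα).1 g.1 g.2
  have hF : Measurable (fun x => W b α g.1 x + t * x) := by
    exact (hWc.add (continuous_const.mul continuous_id)).measurable
  obtain ⟨hEm, hE0⟩ := hE b q hb
  have h1 : ∀ K, (volume.restrict (E b q K)).map (fun x => W b α g.1 x + t * x) ≪ volume := by
    intro K
    refine hAC _ _ hF (hEm K) (fun x hx => hx.1) ?_
    have := hSq b α q m s K g.1 hb hα hm hs g.2 (fun R₀ => hg K R₀) t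
    exact this
  refine Measure.AbsolutelyContinuous.mk fun N hN hN0 => ?_
  rw [Measure.map_apply hF hN, Measure.restrict_apply (hF hN)]
  have h2 : ∀ K, volume ((fun x => W b α g.1 x + t * x) ⁻¹' N ∩ E b q K) = 0 := by
    intro K
    have h3 := h1 K hN0
    rwa [Measure.map_apply hF hN, Measure.restrict_apply (hF hN)] at h3
  have h4 : (fun x => W b α g.1 x + t * x) ⁻¹' N ∩ Ico (0 : ℝ) 1 ⊆
      (⋃ K, (fun x => W b α g.1 x + t * x) ⁻¹' N ∩ E b q K) ∪
        (Ico (0 : ℝ) 1 \ ⋃ K, E b q K) := by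
    rintro x ⟨hx1, hx2⟩
    by_cases hx : x ∈ ⋃ K, E b q K
    · left
      rw [mem_iUnion] at hx ⊢
      obtain ⟨K, hK⟩ := hx
      exact ⟨K, hx1, hK⟩
    · right
      exact ⟨hx2, hx⟩
  refine measure_mono_null h4 ?_
  rw [measure_union_null_iff]
  exact ⟨measure_iUnion_null h2, hE0⟩

theorem good_not_bad {b : ℕ} {α : ℝ} {q m : ℕ} {s : ℝ} (hb : 2 ≤ b) (hα : 0 < α) (hm : 1 ≤ m)
    (hs : 1 / 2 < s) (hSq : S_SQ) (hAC : S_AC) (hE : S_EK) (hW : S_WB) {g : Lip}
    (hg : g ∈ Gd b α q m s) (θ : ℝ) :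
    (volume.restrict (Ico (0 : ℝ) 1)).map
      (fun x => x * Real.cos θ + W b α g.1 x * Real.sin θ) ≪ volume := by
  have hWc : Continuous (W b α g.1) := (hW b α hb hα).1 g.1 g.2
  by_cases h : Real.sin θ = 0
  · have hc : Real.cos θ ≠ 0 := by
      intro hc
      have := Real.sin_sq_add_cos_sq θ
      rw [h, hc] at this
      norm_num at this
    have h1 : (fun x => x * Real.cos θ + W b α g.1 x * Real.sin θ) =
        fun x => Real.cos θ * id x := by
      ext x; rw [h]; simp [mul_comm]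
    rw [h1]
    refine ac_scale measurable_id hc ?_
    rw [Measure.map_id]
    exact Measure.absolutelyContinuous_of_le Measure.restrict_le_self
  · have h1 : (fun x => x * Real.cos θ + W b α g.1 x * Real.sin θ) =
        fun x => Real.sin θ * (W b α g.1 x + (Real.cos θ / Real.sin θ) * x) := by
      ext x; field_simp; ring
    rw [h1]
    refine ac_scale ?_ h (good_ac hb hα hm hs hSq hAC hE hW hg _)
    exact (hWc.add (continuous_const.mul continuous_id)).measurable

theorem t_MAIN (hDec : S_DEC) (hR : S_RND) (hMeas : S_MEAS) (hSum : S_SUM) (hSq : S_SQ)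
    (hAC : S_AC) (hE : S_EK) (hW : S_WB) : S_MAIN := by
  intro b α hb hα h1
  obtain ⟨ρ, hρ, q, m, s, hm, hs, hdec⟩ := hDec b α hb hα h1
  obtain ⟨G, hGc, hGr⟩ := hR b hb
  letI : MeasurableSpace Lip := borel Lip
  haveI : BorelSpace Lip := ⟨rfl⟩
  have hprob : IsProbabilityMeasure (PP ρ) := by unfold PP; infer_instance
  have hGdm : MeasurableSet (Gd b α q m s) := by
    have : Gd b α q m s = ⋂ K : ℕ, ⋂ R₀ : ℕ, {g : Lip | SS b α q m s K R₀ g.1 < ⊤} := by
      ext g; simp [Gd]
    rw [this]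
    refine MeasurableSet.iInter fun K => MeasurableSet.iInter fun R₀ => ?_
    exact measurableSet_lt (hMeas b α q m s K R₀ hb hα) measurable_const
  refine ⟨(PP ρ).map G, (Gd b α q m s)ᶜ, ?_, hGdm.compl, ?_, ?_⟩
  · intro g hg hgd
    exact hg (fun θ => good_not_bad hb hα hm hs hSq hAC hE hW hgd θ)
  · refine ⟨range G, isCompact_range hGc, ?_, ?_⟩
    · rw [Measure.map_apply hGc.measurable (isCompact_range hGc).isClosed.measurableSet]
      simp
    · rw [Measure.map_apply hGc.measurable (isCompact_range hGc).isClosed.measurableSet]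
      simp
  · intro x
    have h2 : (fun y => x + y) '' (Gd b α q m s)ᶜ = (fun z => -x + z) ⁻¹' (Gd b α q m s)ᶜ := by
      ext z
      constructor
      · rintro ⟨y, hy, rfl⟩
        simpa using hy
      · intro hz
        exact ⟨-x + z, hz, by simp⟩
    have h3 : Measurable (fun z : Lip => -x + z) := (continuous_const.add continuous_id).measurable
    rw [h2, Measure.map_apply hGc.measurable (h3 hGdm.compl)]
    have h4 : ∀ K R₀ : ℕ, ∀ᵐ c ∂(PP ρ), SS b α q m s K R₀ (-x + G c).1 < ⊤ := by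
      intro K R₀
      obtain ⟨C, hC, hC'⟩ := hdec K
      have h5 := hSum b α q m s K R₀ ρ C (-x).1 hb hα hm hC (-x).2
        (fun t n hn => hC' (-x).1 (-x).2 t n hn)
      have h6 : ∀ c, (-x + G c).1 = (-x).1 + rnd b c := by
        intro c
        rw [← hGr c]; rfl
      simp only [h6]
      refine ae_lt_top' ?_ h5.ne
      have h7 : Measurable (fun c => SS b α q m s K R₀ (-x + G c).1) :=
        (hMeas b α q m s K R₀ hb hα).comp (h3.comp hGc.measurable)
      simp only [h6] at h7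
      exact h7.aemeasurable
    have h8 : ∀ᵐ c ∂(PP ρ), ∀ K R₀ : ℕ, SS b α q m s K R₀ (-x + G c).1 < ⊤ := by
      rw [ae_all_iff]; intro K
      rw [ae_all_iff]; intro R₀
      exact h4 K R₀
    rw [ae_iff] at h8
    refine measure_mono_null ?_ h8
    intro c hc
    exact hc

end Pool.Agent.R244.WGF
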