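import Pool.Agent.R244.WGF.Stm

/-!
Volume of the bad configurations.
-/

namespace Pool.Agent.R244.WGF

open MeasureTheory Set Metric Topology Filter
open scoped ENNReal NNReal

namespace BADaux

/-- the digit of `x` at the position `p` -/
noncomputable def dig (b p : ℕ) (x : ℝ) : ℕ := ⌊(b : ℝ) ^ (p + 1) * x⌋₊ % b

theorem wd_eq (b k i : ℕ) (x : ℝ) (hx : 0 ≤ x) (hb : 1 ≤ b) :
    wd b k i x = ⌊(b : ℝ) ^ (i + k) * x⌋₊ % b ^ k := by
  have hb0 : (0 : ℝ) < (b : ℝ) ^ k := by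
    have : (0 : ℝ) < b := by exact_mod_cast hb
    positivity
  have hy : 0 ≤ (b : ℝ) ^ i * x := by positivity
  have h1 : (b : ℝ) ^ k * Int.fract ((b : ℝ) ^ i * x) =
      (b : ℝ) ^ (i + k) * x - ((b ^ k * ⌊(b : ℝ) ^ i * x⌋₊ : ℕ) : ℝ) := by
    rw [Int.fract, ← Int.natCast_floor_eq_floor hy]
    push_cast
    rw [pow_add]
    ring
  have h2 : ⌊(b : ℝ) ^ i * x⌋₊ = ⌊(b : ℝ) ^ (i + k) * x⌋₊ / b ^ k := by
    rw [← Nat.floor_div_natCast]
    congr 1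
    push_cast
    rw [pow_add]
    field_simp
  unfold wd
  rw [h1, Nat.floor_sub_natCast, h2]
  exact (Nat.mod_eq_sub _ _).symm

theorem dig_wd (b k i r : ℕ) (x : ℝ) (hx : 0 ≤ x) (hb : 1 ≤ b) (hr : r < k) :
    dig b (i + r) x = wd b k i x / b ^ (k - 1 - r) % b := by
  have hb0 : (0 : ℝ) < (b : ℝ) := by exact_mod_cast hb
  rw [wd_eq b k i x hx hb]
  unfold dig
  have h1 : ⌊(b : ℝ) ^ (i + r + 1) * x⌋₊ = ⌊(b : ℝ) ^ (i + k) * x⌋₊ / b ^ (k - 1 - r) := by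
    rw [← Nat.floor_div_natCast]
    congr 1
    push_cast
    have : i + k = (i + r + 1) + (k - 1 - r) := by omega
    rw [this, pow_add _ (i + r + 1) (k - 1 - r)]
    field_simp
  rw [h1, ← Nat.mod_mul_right_div_self, ← Nat.mod_mul_right_div_self, Nat.mod_mod_of_dvd]
  rw [← pow_succ]
  exact pow_dvd_pow _ (by omega)

theorem floor_dig (b D : ℕ) (hb : 1 ≤ b) (x y : ℝ) (hx : x ∈ Ico (0 : ℝ) 1)
    (hy : y ∈ Ico (0 : ℝ) 1) (h : ∀ p < D, dig b p x = dig b p y) :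
    ⌊(b : ℝ) ^ D * x⌋₊ = ⌊(b : ℝ) ^ D * y⌋₊ := by
  have hb0 : (0 : ℝ) < (b : ℝ) := by exact_mod_cast hb
  induction D with
  | zero =>
    rw [pow_zero, one_mul, one_mul, Nat.floor_eq_zero.2 hx.2, Nat.floor_eq_zero.2 hy.2]
  | succ D ih =>
    have ih' := ih (fun p hp => h p (by omega))
    have key : ∀ z : ℝ, ⌊(b : ℝ) ^ D * z⌋₊ = ⌊(b : ℝ) ^ (D + 1) * z⌋₊ / b := by
      intro z
      rw [← Nat.floor_div_natCast]
      congr 1
      rw [pow_succ]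
      field_simp
    have h1 := h D (by omega)
    unfold dig at h1
    rw [key, key] at ih'
    rw [← Nat.div_add_mod ⌊(b : ℝ) ^ (D + 1) * x⌋₊ b, ← Nat.div_add_mod ⌊(b : ℝ) ^ (D + 1) * y⌋₊ b,
      ih', h1]

/-- the points with given digits -/
def cell1 (b D : ℕ) (w : Fin D → Fin b) : Set ℝ :=
  {y | y ∈ Ico (0 : ℝ) 1 ∧ ∀ p : Fin D, dig b p y = w p}

theorem vol_cell1 (b D : ℕ) (hb : 1 ≤ b) (w : Fin D → Fin b) :
    volume (cell1 b D w) ≤ ENNReal.ofReal (((b : ℝ) ^ D)⁻¹) := by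
  have hb0 : (0 : ℝ) < (b : ℝ) := by exact_mod_cast hb
  rcases (cell1 b D w).eq_empty_or_nonempty with h | ⟨y0, hy0⟩
  · rw [h, measure_empty]
    exact zero_le
  · have hsub : cell1 b D w ⊆ Ico ((⌊(b : ℝ) ^ D * y0⌋₊ : ℝ) / (b : ℝ) ^ D)
        (((⌊(b : ℝ) ^ D * y0⌋₊ : ℝ) + 1) / (b : ℝ) ^ D) := by
      intro y hy
      have h1 := floor_dig b D hb y y0 hy.1 hy0.1
        (fun p hp => (hy.2 ⟨p, hp⟩).trans (hy0.2 ⟨p, hp⟩).symm)
      rw [← h1]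
      have hD : (0 : ℝ) < (b : ℝ) ^ D := by positivity
      refine ⟨?_, ?_⟩
      · rw [div_le_iff₀ hD, mul_comm y]
        exact Nat.floor_le (mul_nonneg hD.le hy.1.1)
      · rw [lt_div_iff₀ hD, mul_comm]
        exact Nat.lt_floor_add_one _
    refine (measure_mono hsub).trans ?_
    rw [Real.volume_Ico]
    apply le_of_eq
    congr 1
    field_simp
    ring

theorem vol_cell (b D M : ℕ) (hb : 1 ≤ b) (w : Fin M × Fin D → Fin b) :
    volume {x : Fin M → ℝ | ∀ j, x j ∈ cell1 b D (fun p => w (j, p))} ≤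
      ENNReal.ofReal ((((b : ℝ) ^ D)⁻¹) ^ M) := by
  have h1 : {x : Fin M → ℝ | ∀ j, x j ∈ cell1 b D (fun p => w (j, p))} =
      Set.pi univ (fun j => cell1 b D (fun p => w (j, p))) := by
    ext x
    simp
  rw [h1, volume_pi_pi]
  refine (Finset.prod_le_prod' fun j _ => vol_cell1 b D hb _).trans ?_
  rw [Finset.prod_const, Finset.card_univ, Fintype.card_fin, ENNReal.ofReal_pow (by positivity)]

/-- the configurations with prescribed links -/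
def BP (b q k M P : ℕ) (ψ : Fin q × Fin M → Fin P × Fin M) : Set (Fin M → ℝ) :=
  {x | (∀ j, x j ∈ Ico (0 : ℝ) 1) ∧ ∀ (l : Fin q) (j : Fin M),
    (((ψ (l, j)).1 : ℕ), (ψ (l, j)).2) ≠ ((l : ℕ) * k, j) ∧
    wd b k (ψ (l, j)).1 (x (ψ (l, j)).2) = wd b k (l * k) (x j)}

theorem bad_sub (b q k M P : ℕ) : Bad b q k M P ⊆ ⋃ ψ, BP b q k M P ψ := by
  intro x hx
  have h := fun (a : Fin q × Fin M) => hx.2 a.1 a.1.2 a.2
  choose i hi j' hj' hw using h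
  refine mem_iUnion.2 ⟨fun a => (⟨i a, hi a⟩, j' a), hx.1, ?_⟩
  intro l j
  exact ⟨hj' (l, j), hw (l, j)⟩

theorem ar (N b m q k D : ℕ) (h : N ^ 2 * b ^ (2 * m * (q * k)) ≤ b ^ (2 * (2 * m * D))) :
    N * b ^ (m * q * k) ≤ b ^ (2 * m * D) := by
  have h1 : (N * b ^ (m * q * k)) ^ 2 ≤ (b ^ (2 * m * D)) ^ 2 := by
    have e1 : (N * b ^ (m * q * k)) ^ 2 = N ^ 2 * b ^ (2 * m * (q * k)) := by
      rw [mul_pow, ← pow_mul]
      congr 2
      ring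
    have e2 : (b ^ (2 * m * D)) ^ 2 = b ^ (2 * (2 * m * D)) := by
      rw [← pow_mul]
      congr 1
      ring
    rw [e1, e2]
    exact h
  exact (Nat.pow_le_pow_iff_left two_ne_zero).1 h1

theorem hlk {q k t : ℕ} (ht : t < q * k) : t / k < q :=
  Nat.div_lt_of_lt_mul (by rwa [mul_comm] at ht)

/-- the link map on the positions -/
def lnk {q k m P : ℕ} (hk : 1 ≤ k) (ψ : Fin q × Fin (2 * m) → Fin P × Fin (2 * m))
    (v : Fin (2 * m) × Fin (P + k)) : Fin (2 * m) × Fin (P + k) :=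
  if h : (v.2 : ℕ) < q * k then
    ((ψ (⟨(v.2 : ℕ) / k, hlk h⟩, v.1)).2,
      ⟨((ψ (⟨(v.2 : ℕ) / k, hlk h⟩, v.1)).1 : ℕ) + (v.2 : ℕ) % k, by
        have h1 := (ψ (⟨(v.2 : ℕ) / k, hlk h⟩, v.1)).1.2
        have h2 := Nat.mod_lt (v.2 : ℕ) hk
        omega⟩)
  else v

theorem lnk_ne {q k m P : ℕ} (hk : 1 ≤ k) (ψ : Fin q × Fin (2 * m) → Fin P × Fin (2 * m))
    (hgood : ∀ (l : Fin q) (j : Fin (2 * m)),
      (((ψ (l, j)).1 : ℕ), (ψ (l, j)).2) ≠ ((l : ℕ) * k, j))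
    (v : Fin (2 * m) × Fin (P + k)) (hv' : (v.2 : ℕ) < q * k) : lnk hk ψ v ≠ v := by
  intro hfv
  unfold lnk at hfv
  rw [dif_pos hv'] at hfv
  have h1 := congrArg Prod.fst hfv
  have h2 := congrArg (fun z : Fin (2 * m) × Fin (P + k) => (z.2 : ℕ)) hfv
  simp only at h1 h2
  apply hgood ⟨(v.2 : ℕ) / k, hlk hv'⟩ v.1
  refine Prod.ext ?_ h1
  simp only
  have h3 := Nat.div_add_mod (v.2 : ℕ) k
  have h5 : (v.2 : ℕ) / k * k = k * ((v.2 : ℕ) / k) := mul_comm _ _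
  omega

theorem lnk_dig {b q k m P : ℕ} (hb : 1 ≤ b) (hk : 1 ≤ k)
    (ψ : Fin q × Fin (2 * m) → Fin P × Fin (2 * m)) (x : Fin (2 * m) → ℝ)
    (hx : x ∈ BP b q k (2 * m) P ψ)
    (v : Fin (2 * m) × Fin (P + k)) (hv' : (v.2 : ℕ) < q * k) :
    dig b v.2 (x v.1) = dig b (lnk hk ψ v).2 (x (lnk hk ψ v).1) := by
  have e0 : lnk hk ψ v = ((ψ (⟨(v.2 : ℕ) / k, hlk hv'⟩, v.1)).2,
      ⟨((ψ (⟨(v.2 : ℕ) / k, hlk hv'⟩, v.1)).1 : ℕ) + (v.2 : ℕ) % k, by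
        have h1 := (ψ (⟨(v.2 : ℕ) / k, hlk hv'⟩, v.1)).1.2
        have h2 := Nat.mod_lt (v.2 : ℕ) hk
        omega⟩) := by
    unfold lnk
    rw [dif_pos hv']
  rw [e0]
  simp only
  have h1 := (hx.2 ⟨(v.2 : ℕ) / k, hlk hv'⟩ v.1).2
  have h3 := Nat.div_add_mod (v.2 : ℕ) k
  have h4 := Nat.mod_lt (v.2 : ℕ) hk
  have e1 := dig_wd b k ((v.2 : ℕ) / k * k) ((v.2 : ℕ) % k) (x v.1) (hx.1 v.1).1 hb h4
  have e2 := dig_wd b k (ψ (⟨(v.2 : ℕ) / k, hlk hv'⟩, v.1)).1 ((v.2 : ℕ) % k)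
    (x (ψ (⟨(v.2 : ℕ) / k, hlk hv'⟩, v.1)).2) (hx.1 _).1 hb h4
  rw [e2, h1]
  simp only
  rw [← e1]
  congr 1
  have h5 : (v.2 : ℕ) / k * k = k * ((v.2 : ℕ) / k) := mul_comm _ _
  omega

theorem card_Vs {q k m P : ℕ} (hP : q * k ≤ P) : 2 * m * (q * k) ≤
    (Finset.univ.filter fun v : Fin (2 * m) × Fin (P + k) => (v.2 : ℕ) < q * k).card := by
  have h1 : (Finset.univ.image (fun a : Fin (2 * m) × Fin (q * k) =>
      ((a.1, Fin.castLE (by omega) a.2) : Fin (2 * m) × Fin (P + k)))).card = 2 * m * (q * k) := by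
    rw [Finset.card_image_of_injective]
    · simp
    · rintro ⟨a1, a2⟩ ⟨b1, b2⟩ h
      have h1 := congrArg Prod.fst h
      have h2 : ((Fin.castLE (by omega) a2 : Fin (P + k)) : ℕ) =
        ((Fin.castLE (by omega) b2 : Fin (P + k)) : ℕ) :=
        congrArg (fun z : Fin (2 * m) × Fin (P + k) => (z.2 : ℕ)) h
      simp only [Fin.val_castLE] at h1 h2
      rw [h1, Fin.ext h2]
  rw [← h1]
  apply Finset.card_le_card
  intro v hv
  obtain ⟨a, _, rfl⟩ := Finset.mem_image.1 hv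
  simp only [Finset.mem_filter, Finset.mem_univ, true_and, Fin.val_castLE]
  exact a.2.2

theorem cntX (hC : S_CNT) (b : ℕ) (X : Type) [Fintype X] (Vs : Finset X) (f : X → X)
    (hb : 1 ≤ b) (hf : ∀ v ∈ Vs, f v ≠ v) (W0 : Finset (X → Fin b))
    (hW : ∀ w ∈ W0, ∀ v ∈ Vs, w v = w (f v)) :
    W0.card ^ 2 * b ^ Vs.card ≤ b ^ (2 * Fintype.card X) := by
  classical
  have h1 := @hC b X _ (LinearOrder.lift' (Fintype.equivFin X) (Fintype.equivFin X).injective)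
    Vs f hb hf
  refine le_trans ?_ h1
  refine Nat.mul_le_mul_right _ (Nat.pow_le_pow_left ?_ 2)
  rw [← Fintype.card_coe W0]
  refine @Fintype.card_le_of_injective _ _ _ (_) (fun w => ⟨w.1, hW w.1 w.2⟩) ?_
  intro u v huv
  have h5 := congrArg Subtype.val huv
  exact Subtype.ext h5

open Classical in
theorem cnt (hC : S_CNT) (b q k m P : ℕ) (hb : 2 ≤ b) (hk : 1 ≤ k) (hP : q * k ≤ P)
    (ψ : Fin q × Fin (2 * m) → Fin P × Fin (2 * m))
    (hgood : ∀ (l : Fin q) (j : Fin (2 * m)),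
      (((ψ (l, j)).1 : ℕ), (ψ (l, j)).2) ≠ ((l : ℕ) * k, j)) :
    (Finset.univ.filter fun w : Fin (2 * m) × Fin (P + k) → Fin b =>
      ∀ v : Fin (2 * m) × Fin (P + k), (v.2 : ℕ) < q * k → w v = w (lnk hk ψ v)).card *
      b ^ (m * q * k) ≤ b ^ (2 * m * (P + k)) := by
  apply ar
  have h1 := cntX hC b (Fin (2 * m) × Fin (P + k))
    (Finset.univ.filter fun v : Fin (2 * m) × Fin (P + k) => (v.2 : ℕ) < q * k) (lnk hk ψ)
    (by omega) (fun v hv => lnk_ne hk ψ hgood v (Finset.mem_filter.1 hv).2)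
    (Finset.univ.filter fun w : Fin (2 * m) × Fin (P + k) → Fin b =>
      ∀ v : Fin (2 * m) × Fin (P + k), (v.2 : ℕ) < q * k → w v = w (lnk hk ψ v))
    (fun w hw v hv => (Finset.mem_filter.1 hw).2 v (Finset.mem_filter.1 hv).2)
  have h3 : Fintype.card (Fin (2 * m) × Fin (P + k)) = 2 * m * (P + k) := by
    rw [Fintype.card_prod, Fintype.card_fin, Fintype.card_fin]
  rw [h3] at h1
  refine le_trans ?_ h1
  refine Nat.mul_le_mul_left _ (Nat.pow_le_pow_right (by omega) ?_)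
  convert card_Vs hP

open Classical in
theorem vol_BP (hC : S_CNT) (b q k m P : ℕ) (hb : 2 ≤ b) (hk : 1 ≤ k) (hP : q * k ≤ P)
    (ψ : Fin q × Fin (2 * m) → Fin P × Fin (2 * m)) :
    volume (BP b q k (2 * m) P ψ) ≤ ENNReal.ofReal (((b : ℝ) ^ (m * q * k))⁻¹) := by
  have hb0 : (0 : ℝ) < (b : ℝ) := by
    have : 0 < b := by omega
    exact_mod_cast this
  by_cases hgood : ∀ (l : Fin q) (j : Fin (2 * m)),
    (((ψ (l, j)).1 : ℕ), (ψ (l, j)).2) ≠ ((l : ℕ) * k, j)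
  swap
  · have : BP b q k (2 * m) P ψ = ∅ := by
      apply Set.eq_empty_of_forall_notMem
      intro x hx
      exact hgood fun l j => (hx.2 l j).1
    rw [this, measure_empty]
    exact zero_le
  set Ws : Finset (Fin (2 * m) × Fin (P + k) → Fin b) :=
    (Finset.univ.filter fun w : Fin (2 * m) × Fin (P + k) → Fin b =>
      ∀ v : Fin (2 * m) × Fin (P + k), (v.2 : ℕ) < q * k → w v = w (lnk hk ψ v)) with hWs
  have hN2 : Ws.card * b ^ (m * q * k) ≤ b ^ (2 * m * (P + k)) := cnt hC b q k m P hb hk hP ψ hgood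
  have hcover : BP b q k (2 * m) P ψ ⊆
      ⋃ w ∈ Ws, {x : Fin (2 * m) → ℝ | ∀ j, x j ∈ cell1 b (P + k) (fun p => w (j, p))} := by
    intro x hx
    refine mem_iUnion₂.2 ⟨fun v => ⟨dig b v.2 (x v.1), Nat.mod_lt _ (by omega)⟩, ?_, ?_⟩
    · rw [hWs, Finset.mem_filter]
      refine ⟨Finset.mem_univ _, ?_⟩
      intro v hv
      exact Fin.ext (lnk_dig (by omega) hk ψ x hx v hv)
    · intro j
      exact ⟨hx.1 j, fun p => rfl⟩
  clear_value Ws
  calc volume (BP b q k (2 * m) P ψ)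
      ≤ ∑ w ∈ Ws, volume {x : Fin (2 * m) → ℝ | ∀ j, x j ∈ cell1 b (P + k) (fun p => w (j, p))} :=
        (measure_mono hcover).trans (measure_biUnion_finset_le _ _)
    _ ≤ ∑ w ∈ Ws, ENNReal.ofReal ((((b : ℝ) ^ (P + k))⁻¹) ^ (2 * m)) :=
        Finset.sum_le_sum fun w _ => vol_cell b (P + k) (2 * m) (by omega) w
    _ = ENNReal.ofReal (Ws.card * (((b : ℝ) ^ (P + k))⁻¹) ^ (2 * m)) := by
        rw [Finset.sum_const, nsmul_eq_mul, ENNReal.ofReal_mul (by positivity),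
          ENNReal.ofReal_natCast]
    _ ≤ ENNReal.ofReal (((b : ℝ) ^ (m * q * k))⁻¹) := by
        apply ENNReal.ofReal_le_ofReal
        have h1 : (Ws.card : ℝ) * (b : ℝ) ^ (m * q * k) ≤ (b : ℝ) ^ (2 * m * (P + k)) := by
          exact_mod_cast hN2
        have h2 : (((b : ℝ) ^ (P + k))⁻¹) ^ (2 * m) = ((b : ℝ) ^ (2 * m * (P + k)))⁻¹ := by
          rw [inv_pow, ← pow_mul, mul_comm (P + k)]
        rw [h2, ← div_eq_mul_inv, div_le_iff₀ (by positivity), ← div_eq_inv_mul,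
          le_div_iff₀ (by positivity)]
        exact h1

end BADaux

open BADaux in
/-- volume of the bad configurations -/
theorem t_BAD (hC : S_CNT) : S_BAD := by
  intro b q k m P hb hk hP
  calc volume (Bad b q k (2 * m) P)
      ≤ ∑ ψ : Fin q × Fin (2 * m) → Fin P × Fin (2 * m), volume (BP b q k (2 * m) P ψ) :=
        (measure_mono (bad_sub b q k (2 * m) P)).trans (measure_iUnion_fintype_le _ _)
    _ ≤ ∑ ψ : Fin q × Fin (2 * m) → Fin P × Fin (2 * m),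
        ENNReal.ofReal (((b : ℝ) ^ (m * q * k))⁻¹) :=
        Finset.sum_le_sum fun ψ _ => vol_BP hC b q k m P hb hk hP ψ
    _ = _ := by
        rw [Finset.sum_const, Finset.card_univ, nsmul_eq_mul, ENNReal.ofReal_mul (by positivity)]
        congr 1
        rw [← Nat.cast_pow, ENNReal.ofReal_natCast]
        congr 1
        simp

end Pool.Agent.R244.WGF
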