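import Pool.Agent.R244.WGF.Stm

/-!
Project WG: polynomial decay of the moments (choice of parameters).
-/

namespace Pool.Agent.R244.WGF

open MeasureTheory Set Metric Topology Filter
open scoped ENNReal NNReal

namespace DECx

theorem FC_le (b : ℕ) (α : ℝ) (q K : ℕ) (g : ℝ → ℝ) (t n : ℝ) :
    ‖FC b α (E b q K) g t n‖ ≤ 1 := by
  unfold FC
  have hsub : E b q K ⊆ Ico (0 : ℝ) 1 := fun x hx => hx.1
  have hv : volume (E b q K) ≤ 1 := (measure_mono hsub).trans (by simp)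
  have h := norm_setIntegral_le_of_norm_le_const (μ := volume) (s := E b q K) (C := 1)
    (f := fun x => Complex.exp (Complex.I * ((n * (W b α g x + t * x) : ℝ) : ℂ)))
    (lt_of_le_of_lt hv (by simp)) (fun x _ => by
      rw [mul_comm]; exact (Complex.norm_exp_ofReal_mul_I _).le)
  refine h.trans ?_
  rw [one_mul]
  have : volume.real (E b q K) ≤ (1 : ℝ≥0∞).toReal := ENNReal.toReal_mono (by simp) hv
  simpa using this

theorem mom_le_one (b : ℕ) (α : ℝ) (q K m : ℕ) (g₀ : ℝ → ℝ) (t n : ℝ) (ρ : Measure unitInterval)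
    [IsProbabilityMeasure ρ] :
    ∫⁻ c, ‖FC b α (E b q K) (g₀ + rnd b c) t n‖ₑ ^ (2 * m) ∂PP ρ ≤ 1 := by
  have hP : IsProbabilityMeasure (PP ρ) := by unfold PP; infer_instance
  calc ∫⁻ c, ‖FC b α (E b q K) (g₀ + rnd b c) t n‖ₑ ^ (2 * m) ∂PP ρ
      ≤ ∫⁻ _c, (1 : ℝ≥0∞) ∂PP ρ := by
        refine lintegral_mono fun c => ?_
        have h := FC_le b α q K (g₀ + rnd b c) t n
        have h1 : ‖FC b α (E b q K) (g₀ + rnd b c) t n‖ₑ ≤ 1 := by
          rw [← ofReal_norm]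
          exact ENNReal.ofReal_le_one.2 h
        exact pow_le_one' h1 _
    _ = 1 := by simp

theorem pow2_ge (k : ℕ) (hk : 1 ≤ k) : 2 * ((k : ℝ) + 1) ^ 2 ≤ 5 * 2 ^ k := by
  have h : 2 * (k + 1) ^ 2 ≤ 5 * 2 ^ k := by
    induction k, hk using Nat.le_induction with
    | base => norm_num
    | succ k hk ih =>
      rcases Nat.lt_or_ge k 2 with h2 | h2
      · have : k = 1 := by omega
        subst this; norm_num
      · have : 2 * (k + 1 + 1) ^ 2 ≤ 2 * (2 * (k + 1) ^ 2) := by nlinarith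
        calc 2 * (k + 1 + 1) ^ 2 ≤ 2 * (2 * (k + 1) ^ 2) := this
          _ ≤ 2 * (5 * 2 ^ k) := by omega
          _ = 5 * 2 ^ (k + 1) := by ring
  exact_mod_cast h

/-- second bound -/
theorem bound2 (lb L θ A ln : ℝ) (m q k p₀ : ℕ) (b : ℝ) (hb : 0 < b) (hlb : Real.log b = lb)
    (hθ : 0 < θ) (hL : L = θ * q * lb) (hLpos : 0 < L) (hm : 1 ≤ m) (hq : 1 ≤ q)
    (hA : 1 + A ≤ m / θ) (hln : 0 ≤ ln) (hk1 : (k : ℝ) * L ≤ ln) (hk2 : ln ≤ ((k : ℝ) + 1) * L) :
    ((p₀ * k * (2 * m) : ℕ) : ℝ) ^ (q * (2 * m)) * (b ^ (m * q * k))⁻¹ ≤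
      (((p₀ : ℝ) * (2 * m)) ^ (q * (2 * m)) * (((q * (2 * m) : ℕ) : ℝ) / L) ^ (q * (2 * m)) *
        Real.exp (m / θ * L)) * Real.exp (ln * (-A)) := by
  set N : ℕ := q * (2 * m) with hN
  have hN1 : 1 ≤ N := Nat.one_le_iff_ne_zero.2 (by rw [hN]; positivity)
  have hNr : (0 : ℝ) < (N : ℝ) := by exact_mod_cast hN1
  have hb1 : (b ^ (m * q * k))⁻¹ = Real.exp (-((m : ℝ) * q * k * lb)) := by
    rw [Real.exp_neg, ← hlb]
    congr 1
    have : ((m : ℝ) * q * k) = ((m * q * k : ℕ) : ℝ) := by push_cast; ring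
    rw [this, Real.exp_nat_mul, Real.exp_log hb]
  have hk : (k : ℝ) ≤ (N : ℝ) / L * Real.exp (ln / N) := by
    have h1 : ln / N ≤ Real.exp (ln / N) := by
      have := Real.add_one_le_exp (ln / N); linarith
    have h2 : ln ≤ N * Real.exp (ln / N) := by
      rw [div_le_iff₀ hNr] at h1; linarith
    have h3 : (k : ℝ) ≤ ln / L := by rw [le_div_iff₀ hLpos]; exact hk1
    calc (k : ℝ) ≤ ln / L := h3
      _ ≤ (N * Real.exp (ln / N)) / L := by gcongr
      _ = (N : ℝ) / L * Real.exp (ln / N) := by ring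
  have hkN : (k : ℝ) ^ N ≤ ((N : ℝ) / L) ^ N * Real.exp ln := by
    calc (k : ℝ) ^ N ≤ ((N : ℝ) / L * Real.exp (ln / N)) ^ N := by gcongr
      _ = ((N : ℝ) / L) ^ N * Real.exp ln := by
        rw [mul_pow, ← Real.exp_nat_mul]
        congr 2
        field_simp
  have hex : Real.exp (-((m : ℝ) * q * k * lb)) ≤ Real.exp (m / θ * L) * Real.exp (-(m / θ * ln)) := by
    rw [← Real.exp_add]
    apply Real.exp_le_exp.2
    have e1 : (m : ℝ) * q * k * lb = m / θ * (k * L) := by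
      rw [hL]; field_simp
    rw [e1]
    have h5 : (0 : ℝ) ≤ m / θ := by positivity
    nlinarith [mul_le_mul_of_nonneg_left hk2 h5]
  have hfin : Real.exp ln * Real.exp (-(m / θ * ln)) ≤ Real.exp (ln * (-A)) := by
    rw [← Real.exp_add]
    apply Real.exp_le_exp.2
    nlinarith [mul_le_mul_of_nonneg_left hA hln]
  have hcast : ((p₀ * k * (2 * m) : ℕ) : ℝ) ^ N = ((p₀ : ℝ) * (2 * m)) ^ N * (k : ℝ) ^ N := by
    rw [← mul_pow]; congr 1; push_cast; ring
  rw [hcast, hb1]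
  calc ((p₀ : ℝ) * (2 * m)) ^ N * (k : ℝ) ^ N * Real.exp (-((m : ℝ) * q * k * lb))
      ≤ ((p₀ : ℝ) * (2 * m)) ^ N * (((N : ℝ) / L) ^ N * Real.exp ln) *
          (Real.exp (m / θ * L) * Real.exp (-(m / θ * ln))) := by
        gcongr
    _ = (((p₀ : ℝ) * (2 * m)) ^ N * ((N : ℝ) / L) ^ N * Real.exp (m / θ * L)) *
          (Real.exp ln * Real.exp (-(m / θ * ln))) := by ring
    _ ≤ _ := by gcongr

/-- third bound -/
theorem bound3 (lb L θ α A ln C : ℝ) (q k R : ℕ) (b n : ℝ) (hb : 2 ≤ b) (hlb : Real.log b = lb)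
    (hθ : 0 < θ) (hθ1 : θ ≤ 1) (hL : L = θ * q * lb) (hA0 : 0 ≤ A)
    (hq4 : 4 ≤ (θ - α) * q) (hR : 2 * q * A ≤ R) (hk : 1 ≤ k) (hn : 0 < n)
    (hln : Real.log n = ln) (hk1 : (k : ℝ) * L ≤ ln) (hk2 : ln ≤ ((k : ℝ) + 1) * L) :
    C / (n / ((k : ℝ) + 1) ^ 2 * (b ^ (-(α * (q * k))) * (b ^ (2 * k))⁻¹ / 2)) ^ R ≤
      |C| * 5 ^ R * Real.exp (ln * (-A)) := by
  have hb0 : 0 < b := by linarith
  have hlb0 : 0 < lb := by rw [← hlb]; exact Real.log_pos (by linarith)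
  have hkr : (1 : ℝ) ≤ (k : ℝ) := by exact_mod_cast hk
  have hn' : n = Real.exp ln := by rw [← hln, Real.exp_log hn]
  have hb1 : b ^ (-(α * (q * k))) = Real.exp (lb * (-(α * (q * k)))) := by
    rw [Real.rpow_def_of_pos hb0, hlb]
  have hb2 : (b ^ (2 * k))⁻¹ = Real.exp (-(2 * k * lb)) := by
    rw [Real.exp_neg, ← hlb]
    congr 1
    have : (2 * (k : ℝ)) = ((2 * k : ℕ) : ℝ) := by push_cast; ring
    rw [this, Real.exp_nat_mul, Real.exp_log hb0]
  have hbk : Real.exp (k * lb) = b ^ k := by rw [← hlb, Real.exp_nat_mul, Real.exp_log hb0]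
  have h2k : (2 : ℝ) ^ k ≤ Real.exp (k * lb) := by rw [hbk]; gcongr
  have hp := pow2_ge k hk
  set D := n / ((k : ℝ) + 1) ^ 2 * (b ^ (-(α * (q * k))) * (b ^ (2 * k))⁻¹ / 2) with hD
  have hDge : Real.exp (k * lb) / 5 ≤ D := by
    have e1 : D = Real.exp (ln + lb * (-(α * (q * k))) + -(2 * k * lb)) / (2 * ((k : ℝ) + 1) ^ 2) := by
      rw [hD, hb1, hb2, hn', Real.exp_add, Real.exp_add]
      field_simp
    have e2 : Real.exp (k * lb + k * lb) ≤ Real.exp (ln + lb * (-(α * (q * k))) + -(2 * k * lb)) := by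
      apply Real.exp_le_exp.2
      have h6 : (k : ℝ) * L = k * lb * (θ * q) := by rw [hL]; ring
      have h7 : 0 ≤ (k : ℝ) * lb := by positivity
      nlinarith [mul_le_mul_of_nonneg_left hq4 h7]
    rw [e1, div_le_div_iff₀ (by norm_num) (by positivity)]
    have h8 : Real.exp (k * lb) * (2 * ((k : ℝ) + 1) ^ 2) ≤ Real.exp (k * lb + k * lb) * 5 := by
      rw [Real.exp_add]
      have h9 : 2 * ((k : ℝ) + 1) ^ 2 ≤ 5 * Real.exp (k * lb) := by linarith
      nlinarith [Real.exp_pos (k * lb)]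
    linarith
  have hDpos : 0 < Real.exp (k * lb) / 5 := by positivity
  have h10 : C / D ^ R ≤ |C| / (Real.exp (k * lb) / 5) ^ R := by
    calc C / D ^ R ≤ |C| / D ^ R := by
          have : 0 < D ^ R := by
            have := lt_of_lt_of_le hDpos hDge
            positivity
          gcongr
          exact le_abs_self C
      _ ≤ |C| / (Real.exp (k * lb) / 5) ^ R := by gcongr
  refine h10.trans ?_
  have h11 : |C| / (Real.exp (k * lb) / 5) ^ R = |C| * 5 ^ R * Real.exp (-(R * (k * lb))) := by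
    have e : Real.exp ((R : ℝ) * (k * lb)) = (Real.exp (k * lb)) ^ R := Real.exp_nat_mul _ _
    rw [div_pow, Real.exp_neg, e, div_div_eq_mul_div, div_eq_mul_inv]
  rw [h11]
  have h12 : Real.exp (-(R * (k * lb))) ≤ Real.exp (ln * (-A)) := by
    apply Real.exp_le_exp.2
    have h13 : A * ln ≤ A * (((k : ℝ) + 1) * L) := mul_le_mul_of_nonneg_left hk2 hA0
    have h14 : A * (((k : ℝ) + 1) * L) ≤ A * ((2 * k) * (q * lb)) := by
      apply mul_le_mul_of_nonneg_left _ hA0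
      have h15 : L ≤ q * lb := by
        rw [hL]
        have : 0 ≤ (q : ℝ) * lb := by positivity
        nlinarith
      have h16 : (0 : ℝ) ≤ q * lb := by positivity
      calc ((k : ℝ) + 1) * L ≤ ((k : ℝ) + 1) * (q * lb) := by gcongr
        _ ≤ (2 * k) * (q * lb) := by gcongr; linarith
    have h17 : A * ((2 * k) * (q * lb)) ≤ R * (k * lb) := by
      have : 0 ≤ (k : ℝ) * lb := by positivity
      nlinarith [mul_le_mul_of_nonneg_right hR this]
    linarith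
  gcongr

end DECx

open DECx in
theorem t_DEC (hRho : S_RHO) (hMom : S_MOM) (hBad : S_BAD) (hE : S_EK) : S_DEC := by
  intro b α hb hα hα1
  set θ : ℝ := (1 + α) / 2 with hθ
  have hθ0 : 0 < θ := by rw [hθ]; linarith
  have hθ1 : θ < 1 := by rw [hθ]; linarith
  have hθα : 0 < θ - α := by rw [hθ]; linarith
  obtain ⟨q, hq⟩ := exists_nat_ge (4 / (θ - α))
  have hq4 : 4 ≤ (θ - α) * q := by
    rw [div_le_iff₀ hθα] at hq; linarith
  have hq1 : 1 ≤ q := by
    rcases Nat.eq_zero_or_pos q with h | h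
    · rw [h] at hq4; norm_num at hq4
    · exact h
  set η : ℝ := (1 / θ - 1) / 4 with hη
  have hη0 : 0 < η := by
    rw [hη]
    have : 1 < 1 / θ := by rw [lt_div_iff₀ hθ0]; linarith
    linarith
  obtain ⟨m, hm⟩ := exists_nat_ge (5 / (2 * η))
  have hm5 : 5 ≤ 2 * m * η := by
    rw [div_le_iff₀ (by positivity)] at hm; linarith
  have hm1 : 1 ≤ m := by
    rcases Nat.eq_zero_or_pos m with h | h
    · rw [h] at hm5; norm_num at hm5
    · exact h
  set s : ℝ := 1 / 2 + η with hs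
  set A : ℝ := 2 * m * s + 4 with hA
  have hA0 : 0 ≤ A := by rw [hA, hs]; positivity
  have hAθ : 1 + A ≤ m / θ := by
    have e : (m : ℝ) / θ = m + 4 * m * η := by
      rw [hη]; field_simp; ring
    rw [e, hA, hs]
    nlinarith
  obtain ⟨R, hR⟩ := exists_nat_ge (2 * q * A)
  obtain ⟨ρ, hρ, C, hC⟩ := hRho R
  obtain ⟨p₀, hp₀, hM⟩ := hMom b α q m R ρ C hb hα hC
  refine ⟨ρ, hρ, q, m, s, hm1, by rw [hs]; linarith, fun K => ?_⟩
  have hbr : (2 : ℝ) ≤ (b : ℝ) := by exact_mod_cast hb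
  set lb : ℝ := Real.log b with hlb
  have hlb0 : 0 < lb := Real.log_pos (by linarith)
  set L : ℝ := θ * q * lb with hL
  have hL0 : 0 < L := by
    have : (0 : ℝ) < q := by exact_mod_cast hq1
    rw [hL]; positivity
  set C1 : ℝ := Real.exp ((max K 1 : ℕ) * L * A) with hC1
  set C2 : ℝ := (((p₀ : ℝ) * (2 * m)) ^ (q * (2 * m)) *
    (((q * (2 * m) : ℕ) : ℝ) / L) ^ (q * (2 * m)) * Real.exp (m / θ * L)) with hC2
  set C3 : ℝ := |C| * 5 ^ R with hC3
  have hC1p : 0 ≤ C1 := (Real.exp_pos _).le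
  have hC2p : 0 ≤ C2 := by rw [hC2]; positivity
  have hC3p : 0 ≤ C3 := by rw [hC3]; positivity
  refine ⟨ENNReal.ofReal (C1 + C2 + C3), ENNReal.ofReal_ne_top, fun g₀ hg₀ t n hn => ?_⟩
  have hnr : (0 : ℝ) < (n : ℝ) := by exact_mod_cast hn
  have hn1 : (1 : ℝ) ≤ (n : ℝ) := by exact_mod_cast hn
  set ln : ℝ := Real.log n with hln
  have hln0 : 0 ≤ ln := Real.log_nonneg hn1
  have hpow : (n : ℝ) ^ (-A) = Real.exp (ln * (-A)) := by
    rw [Real.rpow_def_of_pos hnr]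
  rw [hpow, ← ENNReal.ofReal_mul (by positivity)]
  set k : ℕ := ⌊ln / L⌋₊ with hk
  have hk1 : (k : ℝ) * L ≤ ln := by
    have := Nat.floor_le (a := ln / L) (by positivity)
    rwa [le_div_iff₀ hL0] at this
  have hk2 : ln ≤ ((k : ℝ) + 1) * L := by
    have := (Nat.lt_floor_add_one (ln / L)).le
    rwa [div_le_iff₀ hL0] at this
  have hexp : 0 < Real.exp (ln * (-A)) := Real.exp_pos _
  by_cases hkK : k < max K 1
  · refine (mom_le_one b α q K m g₀ t n ρ).trans ?_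
    rw [← ENNReal.ofReal_one]
    apply ENNReal.ofReal_le_ofReal
    have h1 : 1 ≤ C1 * Real.exp (ln * (-A)) := by
      rw [hC1, ← Real.exp_add]
      apply Real.one_le_exp
      have h2 : (k : ℝ) + 1 ≤ ((max K 1 : ℕ) : ℝ) := by exact_mod_cast hkK
      have h3 : ln ≤ ((max K 1 : ℕ) : ℝ) * L := hk2.trans (by gcongr)
      nlinarith [mul_le_mul_of_nonneg_right h3 hA0]
    nlinarith
  · push Not at hkK
    have hkK1 : K ≤ k := (le_max_left _ _).trans hkK
    have hkk1 : 1 ≤ k := (le_max_right _ _).trans hkK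
    have h1 := hM k K hkk1 hkK1 g₀ hg₀ t n hnr
    refine h1.trans ?_
    have h2 := hBad b q k m (p₀ * k) hb hkk1 (Nat.mul_le_mul_right k hp₀)
    have h3 := bound2 lb L θ A ln m q k p₀ b (by linarith) rfl hθ0 hL hL0 hm1 hq1 hAθ hln0 hk1 hk2
    have h4 := bound3 lb L θ α A ln C q k R b n hbr rfl hθ0 hθ1.le hL hA0 hq4 hR hkk1 hnr rfl
      hk1 hk2
    calc volume (Bad b q k (2 * m) (p₀ * k)) + ENNReal.ofReal (C /
        (n / ((k : ℝ) + 1) ^ 2 * ((b : ℝ) ^ (-(α * (q * k))) * ((b : ℝ) ^ (2 * k))⁻¹ / 2)) ^ R)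
        ≤ ENNReal.ofReal (C2 * Real.exp (ln * (-A))) + ENNReal.ofReal (C3 * Real.exp (ln * (-A))) := by
          refine add_le_add (h2.trans (ENNReal.ofReal_le_ofReal h3)) (ENNReal.ofReal_le_ofReal h4)
      _ = ENNReal.ofReal (C2 * Real.exp (ln * (-A)) + C3 * Real.exp (ln * (-A))) := by
          rw [ENNReal.ofReal_add (by positivity) (by positivity)]
      _ ≤ ENNReal.ofReal ((C1 + C2 + C3) * Real.exp (ln * (-A))) := by
          apply ENNReal.ofReal_le_ofReal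
          nlinarith

end Pool.Agent.R244.WGF
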