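import Pool.Agent.R244.WGF.Stm

namespace Pool.Agent.R244.WGF

open MeasureTheory Set Metric Topology Filter
open scoped ENNReal NNReal

namespace EK

lemma measurable_tent (b k : ℕ) : Measurable (tent b k) := by
  unfold tent
  have h : Measurable (fun x : ℝ => Int.fract ((b : ℝ) ^ k * x)) :=
    measurable_fract.comp (measurable_const.mul measurable_id)
  exact (h.min (measurable_const.sub h)).div_const _

lemma vol (b p : ℕ) (hb : 1 ≤ b) (δ : ℝ) (hδ : 0 < δ) :
    volume {x : ℝ | x ∈ Ico (0 : ℝ) 1 ∧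
      min (Int.fract ((b : ℝ) ^ p * x)) (1 - Int.fract ((b : ℝ) ^ p * x)) < δ} ≤
    ENNReal.ofReal (4 * δ) := by
  have hbp : (1 : ℝ) ≤ (b : ℝ) ^ p := by
    have : (1 : ℝ) ≤ b := by exact_mod_cast hb
    exact one_le_pow₀ this
  have hbp0 : (0 : ℝ) < (b : ℝ) ^ p := by linarith
  have hsub : {x : ℝ | x ∈ Ico (0 : ℝ) 1 ∧
      min (Int.fract ((b : ℝ) ^ p * x)) (1 - Int.fract ((b : ℝ) ^ p * x)) < δ} ⊆
      ⋃ j ∈ Finset.range (b ^ p + 1), ball ((j : ℝ) / (b : ℝ) ^ p) (δ / (b : ℝ) ^ p) := by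
    rintro x ⟨⟨hx0, hx1⟩, hx⟩
    have hz0 : 0 ≤ (b : ℝ) ^ p * x := mul_nonneg hbp0.le hx0
    have hz1 : (b : ℝ) ^ p * x < (b : ℝ) ^ p := by nlinarith
    set z := (b : ℝ) ^ p * x with hz
    have hfl : ((⌊z⌋₊ : ℕ) : ℝ) ≤ z := Nat.floor_le hz0
    have hfr : Int.fract z = z - (⌊z⌋₊ : ℕ) := by
      rw [Int.fract, natCast_floor_eq_intCast_floor hz0]
    have hlt : ⌊z⌋₊ < b ^ p := by
      have : ((⌊z⌋₊ : ℕ) : ℝ) < ((b ^ p : ℕ) : ℝ) := by push_cast; linarith
      exact_mod_cast this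
    have key : ∀ j : ℕ, j ≤ b ^ p → |z - j| < δ →
        x ∈ ⋃ j ∈ Finset.range (b ^ p + 1), ball ((j : ℝ) / (b : ℝ) ^ p) (δ / (b : ℝ) ^ p) := by
      intro j hj h
      simp only [mem_iUnion]
      refine ⟨j, Finset.mem_range.2 (by omega), ?_⟩
      rw [mem_ball, Real.dist_eq]
      have e : x - (j : ℝ) / (b : ℝ) ^ p = (z - j) / (b : ℝ) ^ p := by
        rw [hz]; field_simp
      rw [e, abs_div, abs_of_pos hbp0]
      exact div_lt_div_of_pos_right h hbp0
    rcases min_lt_iff.1 hx with h | h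
    · apply key ⌊z⌋₊ hlt.le
      rw [abs_of_nonneg (by linarith)]
      rw [hfr] at h
      exact h
    · apply key (⌊z⌋₊ + 1) hlt
      have h2 : Int.fract z < 1 := Int.fract_lt_one z
      rw [hfr] at h h2
      push_cast
      rw [abs_of_nonpos (by linarith)]
      linarith
  refine (measure_mono hsub).trans ((measure_biUnion_finset_le _ _).trans ?_)
  simp only [Real.volume_ball, Finset.sum_const, Finset.card_range, nsmul_eq_mul]
  have h1 : ((b ^ p + 1 : ℕ) : ℝ≥0∞) = ENNReal.ofReal ((b : ℝ) ^ p + 1) := by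
    rw [← ENNReal.ofReal_natCast]
    congr 1
    push_cast
    ring
  rw [h1, ← ENNReal.ofReal_mul (by positivity)]
  apply ENNReal.ofReal_le_ofReal
  rw [show ((b : ℝ) ^ p + 1) * (2 * (δ / (b : ℝ) ^ p)) = (2 * δ * ((b : ℝ) ^ p + 1)) / (b : ℝ) ^ p by
    field_simp, div_le_iff₀ hbp0]
  nlinarith

/-- the bad set at level `k` -/
def sk (b q k : ℕ) : Set ℝ :=
  ⋃ l ∈ Finset.range q, {x : ℝ | x ∈ Ico (0 : ℝ) 1 ∧
    min (Int.fract ((b : ℝ) ^ (k + l * k) * x)) (1 - Int.fract ((b : ℝ) ^ (k + l * k) * x)) <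
      ((b : ℝ) ^ k)⁻¹}

lemma vol_sk (b q k : ℕ) (hb : 2 ≤ b) :
    volume (sk b q k) ≤ ENNReal.ofReal (4 * q * (1 / 2) ^ k) := by
  unfold sk
  have hb0 : (0 : ℝ) < (b : ℝ) ^ k := by positivity
  refine (measure_biUnion_finset_le _ _).trans ?_
  calc ∑ l ∈ Finset.range q, volume {x : ℝ | x ∈ Ico (0 : ℝ) 1 ∧
        min (Int.fract ((b : ℝ) ^ (k + l * k) * x)) (1 - Int.fract ((b : ℝ) ^ (k + l * k) * x)) <
        ((b : ℝ) ^ k)⁻¹}
      ≤ ∑ l ∈ Finset.range q, ENNReal.ofReal (4 * (1 / 2) ^ k) := by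
        apply Finset.sum_le_sum
        intro l _
        refine (vol b (k + l * k) (by omega) _ (by positivity)).trans ?_
        apply ENNReal.ofReal_le_ofReal
        have h1 : ((b : ℝ) ^ k)⁻¹ ≤ (1 / 2) ^ k := by
          rw [← inv_pow, one_div]
          apply pow_le_pow_left₀ (by positivity)
          apply inv_anti₀ (by norm_num)
          exact_mod_cast hb
        linarith
    _ = ENNReal.ofReal (4 * q * (1 / 2) ^ k) := by
        rw [Finset.sum_const, Finset.card_range, nsmul_eq_mul, ← ENNReal.ofReal_natCast,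
          ← ENNReal.ofReal_mul (by positivity)]
        congr 1
        ring

lemma sum_sk (b q : ℕ) (hb : 2 ≤ b) : ∑' k, volume (sk b q k) ≠ ∞ := by
  have h1 : ∑' k, volume (sk b q k) ≤ ∑' k, ENNReal.ofReal (4 * q * (1 / 2) ^ k) :=
    ENNReal.tsum_le_tsum fun k => vol_sk b q k hb
  have h2 : Summable (fun k : ℕ => 4 * (q : ℝ) * (1 / 2) ^ k) :=
    (summable_geometric_of_lt_one (by norm_num) (by norm_num)).mul_left _
  rw [← ENNReal.ofReal_tsum_of_nonneg (fun k => by positivity) h2] at h1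
  exact (h1.trans_lt ENNReal.ofReal_lt_top).ne

end EK

open EK

theorem t_EK : S_EK := by
  intro b q hb
  have hb0 : (0 : ℝ) < b := by
    have : 0 < b := by omega
    exact_mod_cast this
  refine ⟨?_, ?_⟩
  · intro K
    have h : E b q K = Ico (0 : ℝ) 1 ∩ ⋂ k, ⋂ (_ : K ≤ k), ⋂ l, ⋂ (_ : l < q),
        {x : ℝ | ((b : ℝ) ^ (2 * k))⁻¹ ≤ tent b k ((b : ℝ) ^ (l * k) * x)} := by
      ext x
      unfold E
      simp only [Set.mem_ofPred_eq, Set.mem_inter_iff, Set.mem_iInter]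
    rw [h]
    refine measurableSet_Ico.inter ?_
    refine MeasurableSet.iInter fun k => MeasurableSet.iInter fun _ => MeasurableSet.iInter fun l =>
      MeasurableSet.iInter fun _ => ?_
    exact measurableSet_le measurable_const
      ((measurable_tent b k).comp (measurable_const.mul measurable_id))
  · rw [measure_eq_zero_iff_ae_notMem]
    filter_upwards [ae_eventually_notMem (sum_sk b q hb)] with x hx hx'
    rw [eventually_atTop] at hx
    obtain ⟨K, hK⟩ := hx
    apply hx'.2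
    rw [mem_iUnion]
    refine ⟨K, hx'.1, ?_⟩
    intro k hk l hl
    by_contra hlt
    rw [not_le] at hlt
    apply hK k hk
    unfold sk
    simp only [mem_iUnion]
    refine ⟨l, Finset.mem_range.2 hl, hx'.1, ?_⟩
    unfold tent at hlt
    have hk0 : (0 : ℝ) < (b : ℝ) ^ k := by positivity
    rw [div_lt_iff₀ hk0, ← mul_assoc, ← pow_add] at hlt
    refine hlt.trans_le (le_of_eq ?_)
    rw [two_mul, pow_add]
    field_simp

end Pool.Agent.R244.WGF
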