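import Pool.Agent.R244.WGF.Stm

/-!
Project WG: the moment bound.
-/

namespace Pool.Agent.R244.WGF

open MeasureTheory Set Metric Topology Filter
open scoped ENNReal NNReal

namespace MOM

instance instPP (ρ : Measure unitInterval) [IsProbabilityMeasure ρ] :
    IsProbabilityMeasure (PP ρ) := by
  unfold PP
  infer_instance

/-- Joint continuity. -/
theorem cont {b : ℕ} {α : ℝ} (hW : S_WB) (hR : S_RND) (hb : 2 ≤ b) (hα : 0 < α) {g₀ : ℝ → ℝ}
    (hg : g₀ ∈ lipSub) :
    Continuous (fun p : Om × ℝ => W b α (g₀ + rnd b p.1) p.2) := by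
  obtain ⟨w1, w2, ⟨C, hC0, w3⟩, w4⟩ := hW b α hb hα
  obtain ⟨G, hG, hGr⟩ := hR b hb
  have hm : ∀ c, rnd b c ∈ lipSub := fun c => by rw [← hGr c]; exact (G c).2
  rw [continuous_iff_continuousAt]
  rintro ⟨c, x⟩
  have key : ∀ p : Om × ℝ, |W b α (g₀ + rnd b p.1) p.2 - W b α (g₀ + rnd b c) x| ≤
      C * ‖G p.1 - G c‖ + |W b α (g₀ + rnd b c) p.2 - W b α (g₀ + rnd b c) x| := by
    intro p
    have h1 : W b α (g₀ + rnd b p.1) p.2 - W b α (g₀ + rnd b c) p.2 =
        W b α ((g₀ + rnd b p.1) - (g₀ + rnd b c)) p.2 :=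
      (w4 _ (lipSub.add_mem hg (hm p.1)) _ (lipSub.add_mem hg (hm c)) p.2).symm
    have h2 : |W b α ((g₀ + rnd b p.1) - (g₀ + rnd b c)) p.2| ≤ C * ‖G p.1 - G c‖ := by
      refine w3 _ (lipSub.sub_mem (lipSub.add_mem hg (hm p.1)) (lipSub.add_mem hg (hm c))) _ ?_ _
      intro y
      have h3 := ev_le (G p.1 - G c) y
      have h4 : (G p.1 - G c).1 y = rnd b p.1 y - rnd b c y := by
        rw [← hGr p.1, ← hGr c]
        rfl
      rw [h4] at h3
      have h5 : ((g₀ + rnd b p.1) - (g₀ + rnd b c)) y = rnd b p.1 y - rnd b c y := by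
        simp only [Pi.sub_apply, Pi.add_apply]
        ring
      rw [h5]
      exact h3
    have h6 : W b α (g₀ + rnd b p.1) p.2 - W b α (g₀ + rnd b c) x =
        (W b α (g₀ + rnd b p.1) p.2 - W b α (g₀ + rnd b c) p.2) +
        (W b α (g₀ + rnd b c) p.2 - W b α (g₀ + rnd b c) x) := by ring
    rw [h6, h1]
    exact (abs_add_le _ _).trans (add_le_add h2 le_rfl)
  rw [ContinuousAt, tendsto_iff_dist_tendsto_zero]
  refine squeeze_zero (g := fun p : Om × ℝ => C * ‖G p.1 - G c‖ +
      |W b α (g₀ + rnd b c) p.2 - W b α (g₀ + rnd b c) x|) (fun _ => dist_nonneg)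
      (fun p => by rw [Real.dist_eq]; exact key p) ?_
  have h1 : Continuous (fun p : Om × ℝ => C * ‖G p.1 - G c‖ +
      |W b α (g₀ + rnd b c) p.2 - W b α (g₀ + rnd b c) x|) := by
    have h0 := w1 _ (lipSub.add_mem hg (hm c))
    have h0' : Continuous (fun p : Om × ℝ => W b α (g₀ + rnd b c) p.2) := h0.comp continuous_snd
    have h0'' : Continuous (fun p : Om × ℝ => G p.1) := hG.comp continuous_fst
    exact (continuous_const.mul (h0''.sub continuous_const).norm).add (h0'.sub continuous_const).abs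
  have h2 := h1.tendsto (c, x)
  simpa using h2

/-- The alternating signs. -/
noncomputable def ep (j : ℕ) : ℝ := if Even j then 1 else -1

theorem abs_ep (j : ℕ) : |ep j| = 1 := by
  unfold ep
  split_ifs <;> simp

theorem prod_conj (m : ℕ) (z : ℂ) :
    ∏ j : Fin (2 * m), (if Even (j : ℕ) then z else (starRingEnd ℂ) z) =
      ((‖z‖ ^ (2 * m) : ℝ) : ℂ) := by
  rw [Fin.prod_univ_eq_prod_range (fun j : ℕ => if Even j then z else (starRingEnd ℂ) z) (2 * m)]
  induction m with
  | zero => simp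
  | succ m ih =>
    rw [show 2 * (m + 1) = 2 * m + 1 + 1 by ring, Finset.prod_range_succ, Finset.prod_range_succ, ih]
    have h1 : Even (2 * m) := even_two_mul m
    have h2 : ¬ Even (2 * m + 1) := by
      rw [Nat.not_even_iff_odd]
      exact odd_two_mul_add_one m
    rw [if_pos h1, if_neg h2, mul_assoc, Complex.mul_conj, Complex.normSq_eq_norm_sq, ← Complex.ofReal_mul]
    congr 1
    ring

theorem prod_FC (μ : Measure ℝ) (m : ℕ) (φ : ℝ → ℝ) :
    ∏ j : Fin (2 * m), ∫ y, Complex.exp (Complex.I * ((ep j * φ y : ℝ) : ℂ)) ∂μ =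
      ((‖∫ y, Complex.exp (Complex.I * ((φ y : ℝ) : ℂ)) ∂μ‖ ^ (2 * m) : ℝ) : ℂ) := by
  rw [← prod_conj]
  refine Finset.prod_congr rfl fun j _ => ?_
  unfold ep
  split_ifs with h
  · simp
  · rw [← integral_conj]
    congr 1
    ext y
    rw [← Complex.exp_conj]
    congr 1
    simp

end MOM

open MOM

theorem t_MOM (hF : S_FREE) (hW : S_WB) (hR : S_RND) (hCo : S_COEF) (hG : S_GOOD) (hE : S_EK) :
    S_MOM := by
  intro b α q m R ρ _ C hb hα hdec
  obtain ⟨p₀, hqp, hgood⟩ := hG b α q (2 * m) hb hα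
  refine ⟨p₀, hqp, ?_⟩
  intro k K hk hKk g₀ hg t n hn
  obtain ⟨w1, w2, -, -⟩ := hW b α hb hα
  obtain ⟨G, hGc, hGr⟩ := hR b hb
  have hm : ∀ c, rnd b c ∈ lipSub := fun c => by rw [← hGr c]; exact (G c).2
  have hC0 : 0 ≤ C := by
    have h1 := hdec 1 one_ne_zero
    have h2 := (norm_nonneg _).trans h1
    simpa using h2
  have hAm : MeasurableSet (E b q K) := (hE b q hb).1 K
  have hA1 : volume (E b q K) ≤ 1 := by
    calc volume (E b q K) ≤ volume (Ico (0 : ℝ) 1) := measure_mono (fun x hx => hx.1)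
      _ = 1 := by simp
  have hfin : IsFiniteMeasure (volume.restrict (E b q K)) :=
    ⟨by rw [Measure.restrict_apply_univ]; exact hA1.trans_lt ENNReal.one_lt_top⟩
  set smin : ℝ := n / ((k : ℝ) + 1) ^ 2 *
    ((b : ℝ) ^ (-(α * (q * k))) * ((b : ℝ) ^ (2 * k))⁻¹ / 2) with hsmin
  have hb0 : (0 : ℝ) < b := by exact_mod_cast (by omega : 0 < b)
  have hs0 : 0 < smin := by
    rw [hsmin]
    have := Real.rpow_pos_of_pos hb0 (-(α * (q * k)))
    positivity
  let φ : Om → ℝ → ℝ := fun c y => n * (W b α (g₀ + rnd b c) y + t * y)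
  have hφ : Continuous (fun p : Om × ℝ => φ p.1 p.2) := by
    have h1 := cont hW hR hb hα hg
    exact continuous_const.mul (h1.add (continuous_const.mul continuous_snd))
  let Θ : Om → (Fin (2 * m) → ℝ) → ℝ := fun c x => ∑ j : Fin (2 * m), ep j * φ c (x j)
  have hΘ : Continuous (fun p : Om × (Fin (2 * m) → ℝ) => Θ p.1 p.2) := by
    refine continuous_finsetSum _ fun j _ => ?_
    exact continuous_const.mul
      (hφ.comp (continuous_fst.prodMk ((continuous_apply j).comp continuous_snd)))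
  let H : Om → (Fin (2 * m) → ℝ) → ℂ := fun c x => Complex.exp (Complex.I * ((Θ c x : ℝ) : ℂ))
  have hH : Continuous (fun p : Om × (Fin (2 * m) → ℝ) => H p.1 p.2) :=
    Complex.continuous_exp.comp (continuous_const.mul (Complex.continuous_ofReal.comp hΘ))
  have hH1 : ∀ c x, ‖H c x‖ = 1 := fun c x => by
    simp only [H]
    rw [mul_comm]
    exact Complex.norm_exp_ofReal_mul_I _
  let ν : Measure (Fin (2 * m) → ℝ) := Measure.pi (fun _ => volume.restrict (E b q K))
  have hν : ν = volume.restrict (Set.pi univ fun _ : Fin (2 * m) => E b q K) := by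
    simp only [ν]
    rw [volume_pi, Measure.restrict_pi_pi]
  have hν1 : ν univ ≤ 1 := by
    simp only [ν]
    rw [Measure.pi_univ]
    refine Finset.prod_le_one' fun j _ => ?_
    rw [Measure.restrict_apply_univ]
    exact hA1
  have hνf : IsFiniteMeasure ν := ⟨hν1.trans_lt ENNReal.one_lt_top⟩
  have hint : Integrable (fun p : Om × (Fin (2 * m) → ℝ) => H p.1 p.2) ((PP ρ).prod ν) :=
    Integrable.of_bound hH.aestronglyMeasurable 1 (ae_of_all _ fun p => (hH1 _ _).le)
  have e1 : ∀ c, ((‖FC b α (E b q K) (g₀ + rnd b c) t n‖ ^ (2 * m) : ℝ) : ℂ) =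
      ∫ x, H c x ∂ν := by
    intro c
    have h1 := prod_FC (volume.restrict (E b q K)) m (φ c)
    have h2 := integral_fintype_prod_eq_prod (𝕜 := ℂ) (ι := Fin (2 * m)) (E := fun _ => ℝ)
      (fun (j : Fin (2 * m)) (y : ℝ) => Complex.exp (Complex.I * ((ep j * φ c y : ℝ) : ℂ)))
      (μ := fun _ => volume.restrict (E b q K))
    rw [FC]
    rw [← h1, ← h2]
    congr 1
    ext x
    simp only [H, Θ]
    rw [← Complex.exp_sum]
    congr 1
    rw [Complex.ofReal_sum, Finset.mul_sum]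
  have hI : Integrable (fun c => ∫ x, H c x ∂ν) (PP ρ) := hint.integral_prod_left
  have hI2 : Integrable (fun c => ‖FC b α (E b q K) (g₀ + rnd b c) t n‖ ^ (2 * m)) (PP ρ) := by
    have h1 := hI.re
    refine h1.congr (ae_of_all _ fun c => ?_)
    simp only
    rw [← e1 c]
    exact Complex.ofReal_re _
  have e2 : ∫⁻ c, ‖FC b α (E b q K) (g₀ + rnd b c) t n‖ₑ ^ (2 * m) ∂PP ρ =
      ‖∫ c, ∫ x, H c x ∂ν ∂PP ρ‖ₑ := by
    have h1 : ∀ c, ‖FC b α (E b q K) (g₀ + rnd b c) t n‖ₑ ^ (2 * m) =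
        ENNReal.ofReal (‖FC b α (E b q K) (g₀ + rnd b c) t n‖ ^ (2 * m)) := fun c => by
      rw [ENNReal.ofReal_pow (norm_nonneg _), ofReal_norm]
    have h0 : 0 ≤ ∫ c, ‖FC b α (E b q K) (g₀ + rnd b c) t n‖ ^ (2 * m) ∂PP ρ :=
      integral_nonneg fun c => by positivity
    simp_rw [h1]
    rw [← ofReal_integral_eq_lintegral_ofReal hI2 (ae_of_all _ fun c => by positivity)]
    simp_rw [← e1]
    rw [integral_complex_ofReal]
    rw [← ofReal_norm, Complex.norm_real, Real.norm_eq_abs, abs_of_nonneg h0]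
  rw [e2, integral_integral_swap hint]
  refine (enorm_integral_le_lintegral_enorm _).trans ?_
  have hb1 : ∀ x, ‖∫ c, H c x ∂PP ρ‖ ≤ 1 := by
    intro x
    have h1 := norm_integral_le_of_norm_le_const (μ := PP ρ) (f := fun c => H c x) (C := 1)
      (ae_of_all _ fun c => (hH1 c x).le)
    simpa using h1
  have hgd : ∀ x ∈ (Set.pi univ fun _ : Fin (2 * m) => E b q K),
      x ∉ Bad b q k (2 * m) (p₀ * k) → ‖∫ c, H c x ∂PP ρ‖ ≤ C / smin ^ R := by
    intro x hx hxB
    obtain ⟨u, hu⟩ := hgood k hk x (fun j => ep j) (fun j => abs_ep j)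
      (fun j => ⟨(hx j (mem_univ j)).1, fun l hl => (hx j (mem_univ j)).2 k hKk l hl⟩) hxB
    set s : ℝ := n / ((k : ℝ) + 1) ^ 2 * ∑ j : Fin (2 * m), ep j * V b α k u (x j) with hs
    have hsm : smin ≤ |s| := by
      rw [hs, hsmin, abs_mul, abs_of_pos (by positivity : 0 < n / ((k : ℝ) + 1) ^ 2)]
      exact mul_le_mul_of_nonneg_left hu (by positivity)
    have hs' : s ≠ 0 := by
      intro h
      rw [h, abs_zero] at hsm
      linarith
    have hup : ∀ c v, Θ (Function.update c (k, u) v) x =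
        Θ c x + ((v : ℝ) - (c (k, u) : ℝ)) * s := by
      intro c v
      simp only [Θ, φ]
      rw [hs, Finset.mul_sum, Finset.mul_sum, ← Finset.sum_add_distrib]
      refine Finset.sum_congr rfl fun j _ => ?_
      rw [w2 _ hg _ (hm _), w2 _ hg _ (hm _), hCo b α hb hα c k u v (x j)]
      ring
    have hmeas : Measurable (fun c => Θ c x - s * (c (k, u) : ℝ)) := by
      have h1 : Continuous (fun c : Om => Θ c x) := hΘ.comp (continuous_id.prodMk continuous_const)
      have h2 : Continuous (fun c : Om => (c (k, u) : ℝ)) :=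
        continuous_subtype_val.comp (continuous_apply _)
      exact (h1.sub (continuous_const.mul h2)).measurable
    have hfree := hF ρ (k, u) (fun c => Θ c x - s * (c (k, u) : ℝ)) s hmeas (by
      intro c v
      rw [hup c v]
      simp only [Function.update_self]
      ring)
    have h3 : ∫ c, H c x ∂PP ρ = ∫ c, Complex.exp (Complex.I *
        (((Θ c x - s * (c (k, u) : ℝ)) + s * (c (k, u) : ℝ) : ℝ) : ℂ)) ∂PP ρ := by
      congr 1
      ext c
      simp only [H]
      congr 3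
      ring
    rw [h3]
    refine hfree.trans ((hdec s hs').trans ?_)
    have h4 : smin ^ R ≤ |s| ^ R := pow_le_pow_left₀ hs0.le hsm R
    exact div_le_div_of_nonneg_left hC0 (pow_pos hs0 R) h4
  have hmB : MeasurableSet (toMeasurable volume (Bad b q k (2 * m) (p₀ * k))) :=
    measurableSet_toMeasurable _ _
  have hae : ∀ᵐ x ∂ν, ‖∫ c, H c x ∂PP ρ‖ₑ ≤
      (toMeasurable volume (Bad b q k (2 * m) (p₀ * k))).indicator 1 x +
        ENNReal.ofReal (C / smin ^ R) := by
    rw [hν]
    refine ae_restrict_of_forall_mem (MeasurableSet.univ_pi fun _ => hAm) fun x hx => ?_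
    rw [← ofReal_norm]
    by_cases hxB : x ∈ Bad b q k (2 * m) (p₀ * k)
    · rw [indicator_of_mem (subset_toMeasurable _ _ hxB)]
      refine le_trans ?_ le_self_add
      simp only [Pi.one_apply]
      rw [← ENNReal.ofReal_one]
      exact ENNReal.ofReal_le_ofReal (hb1 x)
    · refine le_trans ?_ le_add_self
      exact ENNReal.ofReal_le_ofReal (hgd x hx hxB)
  calc ∫⁻ x, ‖∫ c, H c x ∂PP ρ‖ₑ ∂ν
      ≤ ∫⁻ x, ((toMeasurable volume (Bad b q k (2 * m) (p₀ * k))).indicator 1 x +
        ENNReal.ofReal (C / smin ^ R)) ∂ν := lintegral_mono_ae hae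
    _ = ν (toMeasurable volume (Bad b q k (2 * m) (p₀ * k))) +
        ENNReal.ofReal (C / smin ^ R) * ν univ := by
      rw [lintegral_add_right _ measurable_const, lintegral_indicator_one hmB, lintegral_const]
    _ ≤ volume (Bad b q k (2 * m) (p₀ * k)) + ENNReal.ofReal (C / smin ^ R) := by
      refine add_le_add ?_ (mul_le_of_le_one_right' hν1)
      rw [hν]
      refine (Measure.restrict_apply_le _ _).trans ?_
      rw [measure_toMeasurable]

end Pool.Agent.R244.WGF
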