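import Pool.Agent.R244.WGF.Stm

set_option autoImplicit false

namespace Pool.Agent.R244.WGF

open MeasureTheory Set Metric Topology Filter

namespace RHO

/-- The average of finitely many points of the unit interval. -/
noncomputable def avg (R : ℕ) (x : Fin R → unitInterval) : unitInterval :=
  ⟨(∑ i, (x i : ℝ)) / R, by
    have h0 : 0 ≤ ∑ i, (x i : ℝ) := Finset.sum_nonneg (fun i _ => (x i).2.1)
    refine ⟨div_nonneg h0 (Nat.cast_nonneg R), ?_⟩
    have h1 : ∑ i, (x i : ℝ) ≤ ∑ _i : Fin R, (1 : ℝ) := Finset.sum_le_sum (fun i _ => (x i).2.2)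
    simp only [Finset.sum_const, Finset.card_univ, Fintype.card_fin, nsmul_eq_mul, mul_one] at h1
    exact div_le_one_of_le₀ h1 (Nat.cast_nonneg R)⟩

theorem avg_meas (R : ℕ) : Measurable (avg R) := by
  unfold avg
  refine Measurable.subtype_mk ?_
  refine Measurable.div_const ?_ _
  exact Finset.measurable_sum _ (fun i _ => measurable_subtype_coe.comp (measurable_pi_apply i))

theorem one_dim (a : ℝ) (ha : a ≠ 0) :
    ‖∫ x : unitInterval, Complex.exp (Complex.I * ((a * (x : ℝ) : ℝ) : ℂ))‖ ≤ 2 / |a| := by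
  have h1 : ∫ x : unitInterval, Complex.exp (Complex.I * ((a * (x : ℝ) : ℝ) : ℂ)) =
      ∫ x in (0 : ℝ)..1, Complex.exp ((Complex.I * (a : ℂ)) * (x : ℂ)) := by
    rw [intervalIntegral.integral_of_le zero_le_one, ← integral_Icc_eq_integral_Ioc]
    have h2 := integral_subtype_comap (μ := (volume : Measure ℝ)) (measurableSet_Icc (a := (0:ℝ)) (b := 1))
      (fun x : ℝ => Complex.exp (Complex.I * ((a * x : ℝ) : ℂ)))
    have h3 : ∀ x : ℝ, Complex.exp ((Complex.I * (a : ℂ)) * (x : ℂ)) =
        Complex.exp (Complex.I * ((a * x : ℝ) : ℂ)) := by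
      intro x; push_cast; ring_nf
    simp only [h3]
    exact h2
  rw [h1, integral_exp_mul_complex (mul_ne_zero Complex.I_ne_zero (by exact_mod_cast ha))]
  rw [norm_div, norm_mul, Complex.norm_I, one_mul, Complex.norm_real, Real.norm_eq_abs]
  refine div_le_div_of_nonneg_right ?_ (abs_nonneg a)
  refine (norm_sub_le _ _).trans ?_
  have e1 : Complex.I * (a : ℂ) * ((1 : ℝ) : ℂ) = (a : ℂ) * Complex.I := by push_cast; ring
  have e2 : Complex.I * (a : ℂ) * ((0 : ℝ) : ℂ) = 0 := by push_cast; ring
  rw [e1, e2, Complex.norm_exp_ofReal_mul_I, Complex.exp_zero, norm_one]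
  norm_num

end RHO

open RHO in
theorem t_RHO : S_RHO := by
  intro R
  refine ⟨(Measure.pi (fun _ : Fin R => (volume : Measure unitInterval))).map (avg R), ?_, ?_⟩
  · exact Measure.isProbabilityMeasure_map (avg_meas R).aemeasurable
  · refine ⟨(2 * R) ^ R, fun s hs => ?_⟩
    have hcont : Continuous (fun x : unitInterval =>
        Complex.exp (Complex.I * ((s * (x : ℝ) : ℝ) : ℂ))) := by fun_prop
    rw [integral_map (avg_meas R).aemeasurable hcont.aestronglyMeasurable]
    have h1 : ∀ x : Fin R → unitInterval,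
        Complex.exp (Complex.I * ((s * ((avg R x : unitInterval) : ℝ) : ℝ) : ℂ)) =
        ∏ i, Complex.exp (Complex.I * (((s / R) * (x i : ℝ) : ℝ) : ℂ)) := by
      intro x
      rw [← Complex.exp_sum]
      congr 1
      have h2 : ((avg R x : unitInterval) : ℝ) = (∑ i, (x i : ℝ)) / R := rfl
      rw [h2, ← Finset.mul_sum]
      congr 1
      rw [← Complex.ofReal_sum, ← Finset.mul_sum]
      congr 1
      ring
    simp only [h1]
    rw [integral_fintype_prod_eq_prod (fun (_ : Fin R) (y : unitInterval) =>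
      Complex.exp (Complex.I * (((s / R) * (y : ℝ) : ℝ) : ℂ)))]
    rw [norm_prod, Finset.prod_const, Finset.card_univ, Fintype.card_fin, ← div_pow]
    by_cases hR : R = 0
    · subst hR; simp
    · have hR' : (0 : ℝ) < R := by exact_mod_cast Nat.pos_of_ne_zero hR
      refine pow_le_pow_left₀ (norm_nonneg _) ?_ _
      have h3 := one_dim (s / R) (div_ne_zero hs hR'.ne')
      refine h3.trans (le_of_eq ?_)
      rw [abs_div, abs_of_pos hR']
      field_simp

end Pool.Agent.R244.WGF
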