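import Pool.Agent.R244.WGF.Stm

/-! Piece RND of project WG: the random Lipschitz function. -/

namespace Pool.Agent.R244.WGF

open MeasureTheory Set Metric Topology Filter
open scoped ENNReal NNReal

namespace RND

variable {b : ℕ}

theorem one_le_B (hb : 2 ≤ b) (k : ℕ) : (1 : ℝ) ≤ (b : ℝ) ^ k :=
  one_le_pow₀ (by exact_mod_cast (by omega : 1 ≤ b))

theorem tent_nonneg (hb : 2 ≤ b) (k : ℕ) (x : ℝ) : 0 ≤ tent b k x := by
  unfold tent
  have h1 := Int.fract_nonneg ((b : ℝ) ^ k * x)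
  have h2 := (Int.fract_lt_one ((b : ℝ) ^ k * x)).le
  have h3 := one_le_B hb k
  exact div_nonneg (le_min h1 (by linarith)) (by linarith)

theorem tent_le_one (hb : 2 ≤ b) (k : ℕ) (x : ℝ) : tent b k x ≤ 1 := by
  unfold tent
  have h2 := (Int.fract_lt_one ((b : ℝ) ^ k * x)).le
  have h3 := one_le_B hb k
  rw [div_le_one (by linarith)]
  exact (min_le_left _ _).trans (h2.trans h3)

theorem tent_mul (hb : 2 ≤ b) (k : ℕ) (x : ℝ) : tent b k x * (b : ℝ) ^ k =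
    min (Int.fract ((b : ℝ) ^ k * x)) (1 - Int.fract ((b : ℝ) ^ k * x)) := by
  unfold tent
  have h3 := one_le_B hb k
  exact div_mul_cancel₀ _ (by linarith)

theorem wd_lt (hb : 2 ≤ b) (k : ℕ) (x : ℝ) : wd b k 0 x < b ^ k := by
  unfold wd
  have h1 := Int.fract_nonneg x
  have h2 := Int.fract_lt_one x
  have h3 := one_le_B hb k
  rw [pow_zero, one_mul, Nat.floor_lt (mul_nonneg (by linarith) h1)]
  push_cast
  nlinarith

theorem wd_per (k : ℕ) (x : ℝ) : wd b k 0 (x + 1) = wd b k 0 x := by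
  unfold wd
  rw [pow_zero, one_mul, one_mul, Int.fract_add_one]

theorem tent_per (k : ℕ) (x : ℝ) : tent b k (x + 1) = tent b k x := by
  unfold tent
  have h : Int.fract ((b : ℝ) ^ k * (x + 1)) = Int.fract ((b : ℝ) ^ k * x) := by
    have h1 : (b : ℝ) ^ k * (x + 1) = (b : ℝ) ^ k * x + ((b ^ k : ℕ) : ℝ) := by
      push_cast
      ring
    rw [h1, Int.fract_add_natCast]
  rw [h]

theorem wd_congr (hb : 2 ≤ b) (k : ℕ) {x y : ℝ}
    (h : ⌊(b : ℝ) ^ k * x⌋ = ⌊(b : ℝ) ^ k * y⌋) : wd b k 0 x = wd b k 0 y := by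
  have key : ∀ z : ℝ, wd b k 0 z =
      (⌊(b : ℝ) ^ k * z⌋ - (b ^ k : ℕ) * (⌊(b : ℝ) ^ k * z⌋ / (b ^ k : ℕ))).toNat := by
    intro z
    have h3 := one_le_B hb k
    have h4 := Int.floor_div_natCast ((b : ℝ) ^ k * z) (b ^ k)
    have h5 : (b : ℝ) ^ k * z / ((b ^ k : ℕ) : ℝ) = z := by
      push_cast
      field_simp
    rw [h5] at h4
    unfold wd
    rw [pow_zero, one_mul, ← Int.floor_toNat, ← h4]
    congr 1
    have h6 : (b : ℝ) ^ k * Int.fract z =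
        (b : ℝ) ^ k * z - (((b ^ k : ℕ) * ⌊z⌋ : ℤ) : ℝ) := by
      rw [Int.fract]
      push_cast
      ring
    rw [h6, Int.floor_sub_intCast]
  rw [key x, key y, h]

theorem lip_aux (hb : 2 ≤ b) (k : ℕ) (a : ℕ → ℝ) (D : ℝ) (hD0 : 0 ≤ D)
    (hD : ∀ u, u < b ^ k → |a u| ≤ D) {x y : ℝ} (hxy : x ≤ y) :
    |a (wd b k 0 x) * tent b k x - a (wd b k 0 y) * tent b k y| ≤ D * (y - x) := by
  have hB := one_le_B hb k
  have hB0 : (0 : ℝ) < (b : ℝ) ^ k := by linarith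
  have tx := tent_nonneg hb k x
  have ty := tent_nonneg hb k y
  have mx := tent_mul hb k x
  have my := tent_mul hb k y
  have ax := hD _ (wd_lt hb k x)
  have ay := hD _ (wd_lt hb k y)
  have fl : ⌊(b : ℝ) ^ k * x⌋ ≤ ⌊(b : ℝ) ^ k * y⌋ :=
    Int.floor_le_floor (mul_le_mul_of_nonneg_left hxy hB0.le)
  rcases fl.eq_or_lt with h | h
  · rw [wd_congr hb k h, ← mul_sub, abs_mul]
    refine mul_le_mul ay ?_ (abs_nonneg _) hD0
    have h1 : |tent b k x * (b : ℝ) ^ k - tent b k y * (b : ℝ) ^ k| ≤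
        (b : ℝ) ^ k * (y - x) := by
      rw [mx, my]
      have e1 : Int.fract ((b : ℝ) ^ k * x) = (b : ℝ) ^ k * x - ⌊(b : ℝ) ^ k * y⌋ := by
        rw [← h]
        rfl
      have e2 : Int.fract ((b : ℝ) ^ k * y) = (b : ℝ) ^ k * y - ⌊(b : ℝ) ^ k * y⌋ := rfl
      have e3 : 0 ≤ (b : ℝ) ^ k * (y - x) := mul_nonneg hB0.le (by linarith)
      rw [abs_le]
      rcases min_choice (Int.fract ((b : ℝ) ^ k * x)) (1 - Int.fract ((b : ℝ) ^ k * x)) with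
        h5 | h5 <;>
      rcases min_choice (Int.fract ((b : ℝ) ^ k * y)) (1 - Int.fract ((b : ℝ) ^ k * y)) with
        h6 | h6 <;>
      have h7 := min_le_left (Int.fract ((b : ℝ) ^ k * x)) (1 - Int.fract ((b : ℝ) ^ k * x)) <;>
      have h8 := min_le_right (Int.fract ((b : ℝ) ^ k * x)) (1 - Int.fract ((b : ℝ) ^ k * x)) <;>
      have h9 := min_le_left (Int.fract ((b : ℝ) ^ k * y)) (1 - Int.fract ((b : ℝ) ^ k * y)) <;>
      have h10 := min_le_right (Int.fract ((b : ℝ) ^ k * y)) (1 - Int.fract ((b : ℝ) ^ k * y)) <;>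
      rw [h5] at h7 h8 ⊢ <;> rw [h6] at h9 h10 ⊢ <;>
      constructor <;> linarith
    rw [← sub_mul, abs_mul, abs_of_pos hB0, mul_comm] at h1
    exact le_of_mul_le_mul_left h1 hB0
  · have h1 : tent b k x + tent b k y ≤ y - x := by
      have h2 : (b : ℝ) ^ k * (tent b k x + tent b k y) ≤ (b : ℝ) ^ k * (y - x) := by
        have e1 : Int.fract ((b : ℝ) ^ k * x) = (b : ℝ) ^ k * x - ⌊(b : ℝ) ^ k * x⌋ := rfl
        have e2 : Int.fract ((b : ℝ) ^ k * y) = (b : ℝ) ^ k * y - ⌊(b : ℝ) ^ k * y⌋ := rfl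
        have e3 := min_le_right (Int.fract ((b : ℝ) ^ k * x)) (1 - Int.fract ((b : ℝ) ^ k * x))
        have e4 := min_le_left (Int.fract ((b : ℝ) ^ k * y)) (1 - Int.fract ((b : ℝ) ^ k * y))
        have e5 : (⌊(b : ℝ) ^ k * x⌋ : ℝ) + 1 ≤ ⌊(b : ℝ) ^ k * y⌋ := by exact_mod_cast h
        rw [← mx] at e3
        rw [← my] at e4
        linarith
      exact le_of_mul_le_mul_left h2 hB0
    calc |a (wd b k 0 x) * tent b k x - a (wd b k 0 y) * tent b k y|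
        ≤ |a (wd b k 0 x) * tent b k x| + |a (wd b k 0 y) * tent b k y| := abs_sub _ _
      _ ≤ D * tent b k x + D * tent b k y := by
          rw [abs_mul, abs_mul, abs_of_nonneg tx, abs_of_nonneg ty]
          exact add_le_add (mul_le_mul_of_nonneg_right ax tx) (mul_le_mul_of_nonneg_right ay ty)
      _ = D * (tent b k x + tent b k y) := by ring
      _ ≤ D * (y - x) := mul_le_mul_of_nonneg_left h1 hD0

theorem lip_all (hb : 2 ≤ b) (k : ℕ) (a : ℕ → ℝ) (D : ℝ) (hD0 : 0 ≤ D)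
    (hD : ∀ u, u < b ^ k → |a u| ≤ D) (x y : ℝ) :
    |a (wd b k 0 x) * tent b k x - a (wd b k 0 y) * tent b k y| ≤ D * |x - y| := by
  rcases le_total x y with h | h
  · have := lip_aux hb k a D hD0 hD h
    rwa [abs_sub_comm x y, abs_of_nonneg (by linarith : (0 : ℝ) ≤ y - x)]
  · have := lip_aux hb k a D hD0 hD h
    rwa [abs_sub_comm, abs_of_nonneg (by linarith : (0 : ℝ) ≤ x - y)]

theorem bd_all (hb : 2 ≤ b) (k : ℕ) (a : ℕ → ℝ) (D : ℝ) (hD0 : 0 ≤ D)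
    (hD : ∀ u, u < b ^ k → |a u| ≤ D) (x : ℝ) : |a (wd b k 0 x) * tent b k x| ≤ D := by
  rw [abs_mul, abs_of_nonneg (tent_nonneg hb k x)]
  have h1 := hD _ (wd_lt hb k x)
  have h2 := tent_nonneg hb k x
  have h3 := tent_le_one hb k x
  have h4 := abs_nonneg (a (wd b k 0 x))
  nlinarith

/-- the series with general coefficients -/
noncomputable def Fa (b : ℕ) (a : ℕ → ℕ → ℝ) (x : ℝ) : ℝ :=
  ∑' k : ℕ, 1 / ((k : ℝ) + 1) ^ 2 * (a k (wd b k 0 x) * tent b k x)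

theorem sumw : Summable (fun k : ℕ => 1 / ((k : ℝ) + 1) ^ 2) := by
  have h := (summable_nat_add_iff 1).2 (Real.summable_one_div_nat_pow.2 one_lt_two)
  refine h.congr fun k => ?_
  push_cast
  rfl

variable {a : ℕ → ℕ → ℝ} {D : ℕ → ℝ}

theorem sumD (hD0 : ∀ k, 0 ≤ D k) (hD1 : ∀ k, D k ≤ 1) :
    Summable (fun k : ℕ => 1 / ((k : ℝ) + 1) ^ 2 * D k) :=
  Summable.of_nonneg_of_le (fun k => mul_nonneg (by positivity) (hD0 k))
    (fun k => mul_le_of_le_one_right (by positivity) (hD1 k)) sumw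

theorem term_le (hb : 2 ≤ b) (hD0 : ∀ k, 0 ≤ D k)
    (hD : ∀ k u, u < b ^ k → |a k u| ≤ D k) (x : ℝ) (k : ℕ) :
    ‖1 / ((k : ℝ) + 1) ^ 2 * (a k (wd b k 0 x) * tent b k x)‖ ≤
      1 / ((k : ℝ) + 1) ^ 2 * D k := by
  rw [Real.norm_eq_abs, abs_mul, abs_of_nonneg (by positivity : 0 ≤ 1 / ((k : ℝ) + 1) ^ 2)]
  exact mul_le_mul_of_nonneg_left (bd_all hb k (a k) (D k) (hD0 k) (hD k) x) (by positivity)

theorem summ (hb : 2 ≤ b) (hD0 : ∀ k, 0 ≤ D k) (hD1 : ∀ k, D k ≤ 1)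
    (hD : ∀ k u, u < b ^ k → |a k u| ≤ D k) (x : ℝ) :
    Summable (fun k : ℕ => 1 / ((k : ℝ) + 1) ^ 2 * (a k (wd b k 0 x) * tent b k x)) :=
  Summable.of_norm_bounded (sumD hD0 hD1) (term_le hb hD0 hD x)

theorem Fa_bd (hb : 2 ≤ b) (hD0 : ∀ k, 0 ≤ D k) (hD1 : ∀ k, D k ≤ 1)
    (hD : ∀ k u, u < b ^ k → |a k u| ≤ D k) (x : ℝ) :
    |Fa b a x| ≤ ∑' k : ℕ, 1 / ((k : ℝ) + 1) ^ 2 * D k :=
  tsum_of_norm_bounded (sumD hD0 hD1).hasSum (term_le hb hD0 hD x)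

theorem Fa_lip (hb : 2 ≤ b) (hD0 : ∀ k, 0 ≤ D k) (hD1 : ∀ k, D k ≤ 1)
    (hD : ∀ k u, u < b ^ k → |a k u| ≤ D k) (x y : ℝ) :
    |Fa b a x - Fa b a y| ≤ (∑' k : ℕ, 1 / ((k : ℝ) + 1) ^ 2 * D k) * |x - y| := by
  unfold Fa
  rw [← (summ hb hD0 hD1 hD x).tsum_sub (summ hb hD0 hD1 hD y), ← tsum_mul_right]
  refine tsum_of_norm_bounded (E := ℝ) ((sumD hD0 hD1).mul_right |x - y|).hasSum fun k => ?_
  rw [← mul_sub, Real.norm_eq_abs, abs_mul,
    abs_of_nonneg (by positivity : 0 ≤ 1 / ((k : ℝ) + 1) ^ 2), mul_assoc]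
  exact mul_le_mul_of_nonneg_left (lip_all hb k (a k) (D k) (hD0 k) (hD k) x y) (by positivity)

theorem Fa_mem (hb : 2 ≤ b) (hD0 : ∀ k, 0 ≤ D k) (hD1 : ∀ k, D k ≤ 1)
    (hD : ∀ k u, u < b ^ k → |a k u| ≤ D k) : Fa b a ∈ lipSub := by
  refine ⟨fun x => ?_, ⟨∑' k : ℕ, 1 / ((k : ℝ) + 1) ^ 2 * D k,
    tsum_nonneg fun k => mul_nonneg (by positivity) (hD0 k)⟩, ?_⟩
  · unfold Fa
    simp only [wd_per, tent_per]
  · exact LipschitzWith.of_dist_le_mul fun x y => by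
      rw [Real.dist_eq, Real.dist_eq]
      exact Fa_lip hb hD0 hD1 hD x y

theorem lipN_le (hb : 2 ≤ b) (hD0 : ∀ k, 0 ≤ D k) (hD1 : ∀ k, D k ≤ 1)
    (hD : ∀ k u, u < b ^ k → |a k u| ≤ D k) :
    lipN (Fa b a) ≤ 2 * ∑' k : ℕ, 1 / ((k : ℝ) + 1) ^ 2 * D k := by
  have h0 : 0 ≤ ∑' k : ℕ, 1 / ((k : ℝ) + 1) ^ 2 * D k :=
    tsum_nonneg fun k => mul_nonneg (by positivity) (hD0 k)
  rw [two_mul]
  refine add_le_add (ciSup_le fun x => Fa_bd hb hD0 hD1 hD x) (ciSup_le fun p => ?_)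
  exact div_le_of_le_mul₀ (abs_nonneg _) h0 (Fa_lip hb hD0 hD1 hD p.1 p.2)

theorem rnd_eq (b : ℕ) (c : Om) : rnd b c = Fa b (fun k u => (c (k, u) : ℝ)) := rfl

theorem c_le (c : Om) (k u : ℕ) : |(c (k, u) : ℝ)| ≤ 1 := by
  rw [abs_of_nonneg (c (k, u)).2.1]
  exact (c (k, u)).2.2

theorem rnd_mem (hb : 2 ≤ b) (c : Om) : rnd b c ∈ lipSub := by
  rw [rnd_eq]
  exact Fa_mem (D := fun _ => 1) hb (fun _ => zero_le_one) (fun _ => le_rfl)
    fun k u _ => c_le c k u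

/-- size of the difference of the coefficients of level `k` -/
noncomputable def DD (b : ℕ) (c c' : Om) (k : ℕ) : ℝ :=
  min 1 (∑ u ∈ Finset.range (b ^ k), |(c' (k, u) : ℝ) - (c (k, u) : ℝ)|)

theorem DD_nonneg (c c' : Om) (k : ℕ) : 0 ≤ DD b c c' k :=
  le_min zero_le_one (Finset.sum_nonneg fun _ _ => abs_nonneg _)

theorem DD_le (c c' : Om) (k : ℕ) : DD b c c' k ≤ 1 := min_le_left _ _

theorem le_DD (c c' : Om) (k u : ℕ) (hu : u < b ^ k) :
    |(c' (k, u) : ℝ) - (c (k, u) : ℝ)| ≤ DD b c c' k := by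
  refine le_min ?_ ?_
  · have h1 := (c (k, u)).2.1
    have h2 := (c (k, u)).2.2
    have h3 := (c' (k, u)).2.1
    have h4 := (c' (k, u)).2.2
    rw [abs_le]
    constructor <;> linarith
  · exact Finset.single_le_sum (f := fun u => |(c' (k, u) : ℝ) - (c (k, u) : ℝ)|)
      (fun _ _ => abs_nonneg _) (Finset.mem_range.mpr hu)

theorem sub_eq (hb : 2 ≤ b) (c c' : Om) :
    rnd b c' - rnd b c = Fa b (fun k u => (c' (k, u) : ℝ) - (c (k, u) : ℝ)) := by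
  funext x
  show rnd b c' x - rnd b c x = _
  rw [rnd_eq, rnd_eq]
  unfold Fa
  rw [← (summ (D := fun _ => 1) hb (fun _ => zero_le_one) (fun _ => le_rfl)
      (fun k u _ => c_le c' k u) x).tsum_sub (summ (D := fun _ => 1) hb (fun _ => zero_le_one)
      (fun _ => le_rfl) (fun k u _ => c_le c k u) x)]
  refine tsum_congr fun k => ?_
  ring

theorem norm_le (hb : 2 ≤ b) (c c' : Om) :
    lipN (rnd b c' - rnd b c) ≤ 2 * ∑' k : ℕ, 1 / ((k : ℝ) + 1) ^ 2 * DD b c c' k := by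
  rw [sub_eq hb]
  exact lipN_le hb (DD_nonneg c c') (DD_le c c') fun k u hu => le_DD c c' k u hu

theorem cont_DD (b : ℕ) (c : Om) (k : ℕ) : Continuous fun c' : Om => DD b c c' k := by
  unfold DD
  refine continuous_const.min (continuous_finsetSum _ fun u _ => ?_)
  exact ((continuous_subtype_val.comp (continuous_apply (k, u))).sub continuous_const).abs

theorem cont_Phi (b : ℕ) (c : Om) :
    Continuous fun c' : Om => ∑' k : ℕ, 1 / ((k : ℝ) + 1) ^ 2 * DD b c c' k := by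
  refine continuous_tsum (fun k => continuous_const.mul (cont_DD b c k)) sumw fun k c' => ?_
  rw [Real.norm_eq_abs, abs_of_nonneg (mul_nonneg (by positivity) (DD_nonneg c c' k))]
  exact mul_le_of_le_one_right (by positivity) (DD_le c c' k)

theorem Phi_self (b : ℕ) (c : Om) : ∑' k : ℕ, 1 / ((k : ℝ) + 1) ^ 2 * DD b c c k = 0 := by
  have h : ∀ k : ℕ, 1 / ((k : ℝ) + 1) ^ 2 * DD b c c k = 0 := by
    intro k
    simp [DD]
  rw [tsum_congr h, tsum_zero]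

/-- the random element of `Lip` -/
noncomputable def GG (hb : 2 ≤ b) (c : Om) : Lip := ⟨rnd b c, rnd_mem hb c⟩

theorem GG_sub (hb : 2 ≤ b) (c c' : Om) : ‖GG hb c' - GG hb c‖ ≤
    2 * ∑' k : ℕ, 1 / ((k : ℝ) + 1) ^ 2 * DD b c c' k :=
  norm_le hb c c'

theorem GG_cont (hb : 2 ≤ b) : Continuous (GG hb) := by
  rw [continuous_iff_continuousAt]
  intro c
  rw [ContinuousAt, tendsto_iff_norm_sub_tendsto_zero]
  have h1 : Tendsto (fun c' : Om => 2 * ∑' k : ℕ, 1 / ((k : ℝ) + 1) ^ 2 * DD b c c' k) (𝓝 c)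
      (𝓝 0) := by
    have h2 := ((cont_Phi b c).const_mul 2).tendsto c
    simp only [Phi_self, mul_zero] at h2
    exact h2
  exact squeeze_zero (fun c' => norm_nonneg _) (fun c' => GG_sub hb c c') h1

end RND

open RND

/-- The random Lipschitz function. -/
theorem t_RND : S_RND := fun _ hb => ⟨GG hb, GG_cont hb, fun _ => rfl⟩

end Pool.Agent.R244.WGF
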