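import Pool.Agent.R244.WGF.Stm

/-!
WG-SQ: square summability of the Fourier coefficients in every direction.
-/

namespace Pool.Agent.R244.WGF

open MeasureTheory Set Metric Topology Filter

namespace SQp

lemma key (g : ℕ → ℝ) (s S C : ℝ) (m : ℕ) (hs : 1 / 2 < s) (hm : 1 ≤ m) (h0 : ∀ n, 0 ≤ g n)
    (h : ∀ n : ℕ, ∃ a : ℝ, 0 ≤ a ∧ ((n : ℝ) + 1) ^ (2 * (m : ℝ) * s) * a ^ (2 * m) ≤ S ∧
      g n ≤ a + C / ((n : ℝ) + 1)) : Summable (fun n => g n ^ 2) := by
  have hm0 : (m : ℝ) ≠ 0 := by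
    have : (0 : ℝ) < m := by exact_mod_cast hm
    exact this.ne'
  have hb : ∀ n : ℕ, g n ^ 2 ≤ 2 * S ^ (1 / (m : ℝ)) * (((n + 1 : ℕ) : ℝ) ^ (-(2 * s))) +
      2 * C ^ 2 * (((n + 1 : ℕ) : ℝ) ^ (-2 : ℝ)) := by
    intro n
    obtain ⟨a, ha, h1, h2⟩ := h n
    have hN : (0 : ℝ) < (n : ℝ) + 1 := by positivity
    push_cast
    have h3 : a ^ 2 ≤ S ^ (1 / (m : ℝ)) * ((n : ℝ) + 1) ^ (-(2 * s)) := by
      have h4 : (((n : ℝ) + 1) ^ (2 * (m : ℝ) * s) * a ^ (2 * m)) ^ (1 / (m : ℝ)) ≤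
          S ^ (1 / (m : ℝ)) := Real.rpow_le_rpow (by positivity) h1 (by positivity)
      rw [Real.mul_rpow (by positivity) (by positivity), ← Real.rpow_mul hN.le, pow_mul,
        ← Real.rpow_natCast (a ^ 2) m, ← Real.rpow_mul (by positivity)] at h4
      have h5 : (2 * (m : ℝ) * s) * (1 / (m : ℝ)) = 2 * s := by field_simp
      have h6 : (m : ℝ) * (1 / (m : ℝ)) = 1 := by field_simp
      rw [h5, h6, Real.rpow_one] at h4
      rw [Real.rpow_neg hN.le]
      have h7 : 0 < ((n : ℝ) + 1) ^ (2 * s) := Real.rpow_pos_of_pos hN _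
      rw [← div_eq_mul_inv, le_div_iff₀ h7]
      linarith
    have h8 : g n ^ 2 ≤ 2 * a ^ 2 + 2 * (C / ((n : ℝ) + 1)) ^ 2 := by
      have := h0 n
      have h9 : g n ^ 2 ≤ (a + C / ((n : ℝ) + 1)) ^ 2 := pow_le_pow_left₀ this h2 2
      nlinarith [sq_nonneg (a - C / ((n : ℝ) + 1))]
    have h10 : (C / ((n : ℝ) + 1)) ^ 2 = C ^ 2 * ((n : ℝ) + 1) ^ (-2 : ℝ) := by
      rw [Real.rpow_neg hN.le, div_pow, div_eq_mul_inv]
      norm_num
    rw [h10] at h8
    linarith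
  refine Summable.of_nonneg_of_le (fun n => sq_nonneg _) hb ?_
  refine Summable.add ?_ ?_
  · refine Summable.mul_left _ ?_
    exact (summable_nat_add_iff 1).2 (Real.summable_nat_rpow.2 (by linarith))
  · refine Summable.mul_left _ ?_
    exact (summable_nat_add_iff 1).2 (Real.summable_nat_rpow.2 (by norm_num))

lemma exp_diff (u v : ℝ) : ‖Complex.exp (Complex.I * (u : ℂ)) - Complex.exp (Complex.I * (v : ℂ))‖
    ≤ |u - v| := by
  have h1 : Complex.exp (Complex.I * (u : ℂ)) - Complex.exp (Complex.I * (v : ℂ)) =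
      Complex.exp (Complex.I * (v : ℂ)) * (Complex.exp (Complex.I * ((u - v : ℝ) : ℂ)) - 1) := by
    rw [mul_sub, ← Complex.exp_add, mul_one]
    congr 2
    push_cast
    ring
  rw [h1, norm_mul, mul_comm Complex.I (v : ℂ), Complex.norm_exp_ofReal_mul_I, one_mul]
  exact Real.norm_exp_I_mul_ofReal_sub_one_le

lemma FC_diff (b : ℕ) (α : ℝ) (A : Set ℝ) (g : ℝ → ℝ) (hA : MeasurableSet A)
    (hA1 : A ⊆ Ico (0 : ℝ) 1) (hc : Continuous (W b α g)) (t t' N : ℝ) (hN : 0 ≤ N) :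
    ‖FC b α A g t N - FC b α A g t' N‖ ≤ N * |t - t'| := by
  have hvol : volume A ≤ 1 := by
    refine (measure_mono hA1).trans ?_
    rw [Real.volume_Ico]; simp
  have hfin : volume A < ⊤ := hvol.trans_lt ENNReal.one_lt_top
  have hi : ∀ t : ℝ, IntegrableOn (fun x => Complex.exp
      (Complex.I * ((N * (W b α g x + t * x) : ℝ) : ℂ))) A := by
    intro t
    refine Measure.integrableOn_of_bounded (M := 1) hfin.ne ?_ ?_
    · refine Continuous.aestronglyMeasurable ?_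
      fun_prop
    · refine Filter.Eventually.of_forall fun x => ?_
      rw [mul_comm, Complex.norm_exp_ofReal_mul_I]
  unfold FC
  rw [← integral_sub (hi t) (hi t')]
  have hb : ∀ x ∈ A, ‖Complex.exp (Complex.I * ((N * (W b α g x + t * x) : ℝ) : ℂ)) -
      Complex.exp (Complex.I * ((N * (W b α g x + t' * x) : ℝ) : ℂ))‖ ≤ N * |t - t'| := by
    intro x hx
    refine (exp_diff _ _).trans ?_
    have h1 : N * (W b α g x + t * x) - N * (W b α g x + t' * x) = N * ((t - t') * x) := by ring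
    rw [h1, abs_mul, abs_of_nonneg hN, abs_mul]
    have hx1 := hA1 hx
    have h2 : |x| ≤ 1 := by rw [abs_of_nonneg hx1.1]; exact hx1.2.le
    refine mul_le_mul_of_nonneg_left ?_ hN
    calc |t - t'| * |x| ≤ |t - t'| * 1 := mul_le_mul_of_nonneg_left h2 (abs_nonneg _)
      _ = |t - t'| := mul_one _
  have h3 := norm_setIntegral_le_of_norm_le_const hfin hb
  refine h3.trans ?_
  have h4 : volume.real A ≤ 1 := by
    rw [measureReal_def]
    exact ENNReal.toReal_le_of_le_ofReal zero_le_one (by simpa using hvol)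
  calc N * |t - t'| * volume.real A ≤ N * |t - t'| * 1 :=
        mul_le_mul_of_nonneg_left h4 (by positivity)
    _ = _ := mul_one _

end SQp

open SQp in
theorem t_SQ (hW : S_WB) (hE : S_EK) : S_SQ := by
  intro b α q m s K g hb hα hm hs hg hSS t
  have hA : MeasurableSet (E b q K) := (hE b q hb).1 K
  have hA1 : E b q K ⊆ Ico (0 : ℝ) 1 := fun x hx => hx.1
  have hc : Continuous (W b α g) := (hW b α hb hα).1 g hg
  set R₀ : ℕ := ⌈|t|⌉₊ + 1 with hR
  set S : ℝ := (SS b α q m s K R₀ g).toReal with hS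
  rw [← summable_nat_add_iff 1]
  refine key (fun n => ‖FC b α (E b q K) g t ((n + 1 : ℕ) : ℝ)‖) s S 1 m hs hm
    (fun n => norm_nonneg _) ?_
  intro n
  set N : ℝ := (n : ℝ) + 1 with hN
  have hN1 : 1 ≤ N := by
    have : (0 : ℝ) ≤ n := by positivity
    linarith
  have hN0 : 0 < N := by linarith
  set j : ℤ := round (t * N ^ 2) with hj
  have hj1 : |t * N ^ 2 - j| ≤ 1 / 2 := abs_sub_round _
  refine ⟨‖FC b α (E b q K) g ((j : ℝ) / N ^ 2) N‖, norm_nonneg _, ?_, ?_⟩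
  · -- one term of the sum
    have hjm : j ∈ Finset.Icc (-((R₀ : ℤ) * ((n : ℤ) + 1) ^ 2)) ((R₀ : ℤ) * ((n : ℤ) + 1) ^ 2) := by
      have h1 : |(j : ℝ)| ≤ (R₀ : ℝ) * N ^ 2 := by
        have h2 : |(j : ℝ)| ≤ |t * N ^ 2| + 1 / 2 := by
          have := abs_sub_abs_le_abs_sub (j : ℝ) (t * N ^ 2)
          rw [abs_sub_comm] at this
          linarith
        rw [abs_mul, abs_of_nonneg (by positivity : (0 : ℝ) ≤ N ^ 2)] at h2
        have h3 : |t| ≤ (⌈|t|⌉₊ : ℝ) := Nat.le_ceil _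
        have h4 : (1 : ℝ) ≤ N ^ 2 := one_le_pow₀ hN1
        have h5 : (R₀ : ℝ) = (⌈|t|⌉₊ : ℝ) + 1 := by rw [hR]; push_cast; ring
        rw [h5]
        nlinarith [mul_le_mul_of_nonneg_right h3 (by positivity : (0 : ℝ) ≤ N ^ 2)]
      rw [Finset.mem_Icc, ← abs_le]
      have h2 : ((|j| : ℤ) : ℝ) ≤ (((R₀ : ℤ) * ((n : ℤ) + 1) ^ 2 : ℤ) : ℝ) := by
        push_cast
        exact h1
      exact_mod_cast h2
    have hle : ENNReal.ofReal (((n : ℝ) + 1) ^ (2 * m * s)) *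
        ‖FC b α (E b q K) g ((j : ℝ) / ((n : ℝ) + 1) ^ 2) ((n : ℝ) + 1)‖ₑ ^ (2 * m) ≤
        SS b α q m s K R₀ g := by
      unfold SS
      refine le_trans ?_ (ENNReal.le_tsum n)
      exact Finset.single_le_sum (f := fun j : ℤ => ENNReal.ofReal (((n : ℝ) + 1) ^ (2 * m * s)) *
        ‖FC b α (E b q K) g ((j : ℝ) / ((n : ℝ) + 1) ^ 2) ((n : ℝ) + 1)‖ₑ ^ (2 * m))
        (fun _ _ => zero_le) hjm
    have h1 := ENNReal.toReal_mono (hSS R₀).ne hle
    rw [ENNReal.toReal_mul, ENNReal.toReal_ofReal (by positivity), ENNReal.toReal_pow,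
      toReal_enorm] at h1
    exact h1
  · have h1 := FC_diff b α (E b q K) g hA hA1 hc t ((j : ℝ) / N ^ 2) N hN0.le
    have h2 : |t - (j : ℝ) / N ^ 2| ≤ 1 / (2 * N ^ 2) := by
      have h3 : t - (j : ℝ) / N ^ 2 = (t * N ^ 2 - j) / N ^ 2 := by field_simp
      rw [h3, abs_div, abs_of_pos (by positivity : (0 : ℝ) < N ^ 2),
        div_le_div_iff₀ (by positivity) (by positivity)]
      nlinarith [sq_nonneg N]
    have h4 : N * |t - (j : ℝ) / N ^ 2| ≤ 1 / N := by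
      calc N * |t - (j : ℝ) / N ^ 2| ≤ N * (1 / (2 * N ^ 2)) :=
            mul_le_mul_of_nonneg_left h2 hN0.le
        _ = 1 / 2 * (1 / N) := by field_simp
        _ ≤ 1 / N := by
            have : 0 < 1 / N := by positivity
            linarith
    have h5 : ((n + 1 : ℕ) : ℝ) = N := by rw [hN]; push_cast; ring
    show ‖FC b α (E b q K) g t ((n + 1 : ℕ) : ℝ)‖ ≤ _
    rw [h5]
    have h6 := norm_sub_norm_le (FC b α (E b q K) g t N) (FC b α (E b q K) g ((j : ℝ) / N ^ 2) N)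
    linarith

end Pool.Agent.R244.WGF
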