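import Pool.Agent.R244.WGF.Stm

/-!
Project WG (MP_2cc37a_an), piece SUM: the random sum is finite.
-/

namespace Pool.Agent.R244.WGF

open MeasureTheory Set Metric Topology Filter
open scoped ENNReal NNReal Classical

namespace PSUM

theorem E_sub (b q K : ℕ) : E b q K ⊆ Ico (0 : ℝ) 1 := fun _ hx => hx.1

theorem vol_E (b q K : ℕ) : volume (E b q K) < ⊤ := by
  refine lt_of_le_of_lt (measure_mono (E_sub b q K)) ?_
  rw [Real.volume_Ico]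
  exact ENNReal.ofReal_lt_top

theorem cont_W (hW : S_WB) (b : ℕ) (α : ℝ) (hb : 2 ≤ b) (hα : 0 < α) (G : Om → Lip)
    (hG : Continuous G) (hGr : ∀ c, (G c).1 = rnd b c) (g₀ : ℝ → ℝ) (h0 : g₀ ∈ lipSub) (x : ℝ) :
    Continuous fun c : Om => W b α (g₀ + rnd b c) x := by
  obtain ⟨-, hadd, ⟨C, hC0, hC⟩, hsub⟩ := hW b α hb hα
  have hmem : ∀ c, rnd b c ∈ lipSub := fun c => by rw [← hGr c]; exact (G c).2
  have e1 : (fun c : Om => W b α (g₀ + rnd b c) x) =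
      fun c : Om => W b α g₀ x + W b α (rnd b c) x := by
    funext c
    exact hadd g₀ h0 _ (hmem c) x
  rw [e1]
  refine continuous_const.add ?_
  rw [continuous_iff_continuousAt]
  intro c
  rw [ContinuousAt, tendsto_iff_norm_sub_tendsto_zero]
  have hlim : Tendsto (fun c' => C * ‖G c' - G c‖) (𝓝 c) (𝓝 0) := by
    have h1 : Tendsto (fun c' => ‖G c' - G c‖) (𝓝 c) (𝓝 0) := by
      rw [← tendsto_iff_norm_sub_tendsto_zero]
      exact hG.continuousAt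
    simpa using h1.const_mul C
  refine squeeze_zero (fun _ => norm_nonneg _) (fun c' => ?_) hlim
  rw [Real.norm_eq_abs, ← hsub _ (hmem c') _ (hmem c)]
  have hm : rnd b c' - rnd b c ∈ lipSub := lipSub.sub_mem (hmem c') (hmem c)
  refine hC _ hm _ (fun y => ?_) x
  have h2 := ev_le (G c' - G c) y
  have h3 : (G c' - G c).1 = rnd b c' - rnd b c := by
    have : (G c' - G c).1 = (G c').1 - (G c).1 := rfl
    rw [this, hGr, hGr]
  rwa [h3] at h2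

theorem cont_FC (hW : S_WB) (b : ℕ) (α : ℝ) (hb : 2 ≤ b) (hα : 0 < α) (G : Om → Lip)
    (hG : Continuous G) (hGr : ∀ c, (G c).1 = rnd b c) (g₀ : ℝ → ℝ) (h0 : g₀ ∈ lipSub)
    (A : Set ℝ) (hA : volume A < ⊤) (t n : ℝ) :
    Continuous fun c : Om => FC b α A (g₀ + rnd b c) t n := by
  have hmem : ∀ c, rnd b c ∈ lipSub := fun c => by rw [← hGr c]; exact (G c).2
  have hcx : ∀ c, Continuous (W b α (g₀ + rnd b c)) := fun c =>
    (hW b α hb hα).1 _ (lipSub.add_mem h0 (hmem c))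
  have hfin : IsFiniteMeasure (volume.restrict A) := ⟨by rwa [Measure.restrict_apply_univ]⟩
  unfold FC
  refine continuous_of_dominated (bound := fun _ => (1 : ℝ)) ?_ ?_ (integrable_const _) ?_
  · intro c
    have := hcx c
    exact Continuous.aestronglyMeasurable (by fun_prop)
  · intro c
    refine Eventually.of_forall fun x => ?_
    rw [mul_comm, Complex.norm_exp_ofReal_mul_I]
  · refine Eventually.of_forall fun x => ?_
    have := cont_W hW b α hb hα G hG hGr g₀ h0 x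
    fun_prop

theorem card_le (R₀ n : ℕ) : ((Finset.Icc (-((R₀ : ℤ) * ((n : ℤ) + 1) ^ 2))
    ((R₀ : ℤ) * ((n : ℤ) + 1) ^ 2) : Finset ℤ).card : ℝ) ≤ (2 * R₀ + 1) * ((n : ℝ) + 1) ^ 2 := by
  rw [Int.card_Icc]
  have h0 : (0 : ℤ) ≤ (R₀ : ℤ) * ((n : ℤ) + 1) ^ 2 := by positivity
  have h1 : (((R₀ : ℤ) * ((n : ℤ) + 1) ^ 2 + 1 - -((R₀ : ℤ) * ((n : ℤ) + 1) ^ 2)).toNat : ℤ) =
      2 * ((R₀ : ℤ) * ((n : ℤ) + 1) ^ 2) + 1 := by
    rw [Int.toNat_of_nonneg (by linarith)]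
    ring
  have h2 : ((((R₀ : ℤ) * ((n : ℤ) + 1) ^ 2 + 1 - -((R₀ : ℤ) * ((n : ℤ) + 1) ^ 2)).toNat : ℕ) : ℝ) =
      2 * ((R₀ : ℝ) * ((n : ℝ) + 1) ^ 2) + 1 := by
    exact_mod_cast h1
  rw [h2]
  have h3 : (1 : ℝ) ≤ ((n : ℝ) + 1) ^ 2 := by
    have : (0 : ℝ) ≤ (n : ℝ) := Nat.cast_nonneg n
    nlinarith
  nlinarith

theorem summ (R₀ : ℕ) : Summable fun n : ℕ => (2 * (R₀ : ℝ) + 1) * (1 / ((n : ℝ) + 1) ^ 2) := by
  refine Summable.mul_left _ ?_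
  have h := (summable_nat_add_iff 1).2 (Real.summable_one_div_nat_pow.2 (by norm_num : 1 < 2))
  refine h.congr fun n => ?_
  push_cast
  rfl

end PSUM

theorem t_SUM (hW : S_WB) (hR : S_RND) (_hE : S_EK) : S_SUM := by
  intro b α q m s K R₀ ρ _ C g₀ hb hα hm hC h0 hyp
  obtain ⟨G, hG, hGr⟩ := hR b hb
  have hprob : IsProbabilityMeasure (PP ρ) := by unfold PP; infer_instance
  have hcont : ∀ t n : ℝ, Continuous fun c : Om => FC b α (E b q K) (g₀ + rnd b c) t n :=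
    fun t n => PSUM.cont_FC hW b α hb hα G hG hGr g₀ h0 _ (PSUM.vol_E b q K) t n
  have hmeas0 : ∀ t n : ℝ, Measurable fun c : Om =>
      ‖FC b α (E b q K) (g₀ + rnd b c) t n‖ₑ ^ (2 * m) := fun t n =>
    (hcont t n).enorm.measurable.pow_const _
  have hmeas1 : ∀ (n : ℕ) (j : ℤ), Measurable fun c : Om =>
      ENNReal.ofReal (((n : ℝ) + 1) ^ (2 * m * s)) *
      ‖FC b α (E b q K) (g₀ + rnd b c) ((j : ℝ) / ((n : ℝ) + 1) ^ 2) ((n : ℝ) + 1)‖ₑ ^ (2 * m) :=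
    fun n j => (hmeas0 _ _).const_mul _
  unfold SS
  rw [lintegral_tsum fun n => (Finset.measurable_fun_sum _ fun j _ => hmeas1 n j).aemeasurable]
  have hterm : ∀ n : ℕ, ∫⁻ c, ∑ j ∈ (Finset.Icc (-((R₀ : ℤ) * ((n : ℤ) + 1) ^ 2))
      ((R₀ : ℤ) * ((n : ℤ) + 1) ^ 2) : Finset ℤ),
      ENNReal.ofReal (((n : ℝ) + 1) ^ (2 * m * s)) *
      ‖FC b α (E b q K) (g₀ + rnd b c) ((j : ℝ) / ((n : ℝ) + 1) ^ 2) ((n : ℝ) + 1)‖ₑ ^ (2 * m) ∂PP ρ
      ≤ C * ENNReal.ofReal ((2 * (R₀ : ℝ) + 1) * (1 / ((n : ℝ) + 1) ^ 2)) := by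
    intro n
    have hn1 : (0 : ℝ) < (n : ℝ) + 1 := by positivity
    rw [lintegral_finsetSum _ fun j _ => hmeas1 n j]
    have hj : ∀ j : ℤ, ∫⁻ c, ENNReal.ofReal (((n : ℝ) + 1) ^ (2 * m * s)) *
        ‖FC b α (E b q K) (g₀ + rnd b c) ((j : ℝ) / ((n : ℝ) + 1) ^ 2) ((n : ℝ) + 1)‖ₑ ^ (2 * m)
        ∂PP ρ ≤ C * ENNReal.ofReal (1 / ((n : ℝ) + 1) ^ 4) := by
      intro j
      rw [lintegral_const_mul _ (hmeas0 _ _)]
      have h1 := hyp ((j : ℝ) / ((n : ℝ) + 1) ^ 2) (n + 1) (by omega)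
      have e1 : ((n + 1 : ℕ) : ℝ) = (n : ℝ) + 1 := by push_cast; ring
      rw [e1] at h1
      calc ENNReal.ofReal (((n : ℝ) + 1) ^ (2 * m * s)) * _
          ≤ ENNReal.ofReal (((n : ℝ) + 1) ^ (2 * m * s)) *
            (C * ENNReal.ofReal (((n : ℝ) + 1) ^ (-(2 * m * s + 4)))) := by gcongr
        _ = C * (ENNReal.ofReal (((n : ℝ) + 1) ^ (2 * m * s)) *
            ENNReal.ofReal (((n : ℝ) + 1) ^ (-(2 * m * s + 4)))) := by ring
        _ = C * ENNReal.ofReal (1 / ((n : ℝ) + 1) ^ 4) := by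
            rw [← ENNReal.ofReal_mul (by positivity), ← Real.rpow_add hn1]
            congr 2
            have e2 : 2 * (m : ℝ) * s + -(2 * m * s + 4) = -((4 : ℕ) : ℝ) := by push_cast; ring
            rw [e2, Real.rpow_neg hn1.le, Real.rpow_natCast, one_div]
    refine (Finset.sum_le_sum fun j _ => hj j).trans ?_
    rw [Finset.sum_const, nsmul_eq_mul]
    set N : ℕ := (Finset.Icc (-((R₀ : ℤ) * ((n : ℤ) + 1) ^ 2))
      ((R₀ : ℤ) * ((n : ℤ) + 1) ^ 2) : Finset ℤ).card with hN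
    have hNle : (N : ℝ) ≤ (2 * R₀ + 1) * ((n : ℝ) + 1) ^ 2 := PSUM.card_le R₀ n
    have e3 : (N : ℝ≥0∞) = ENNReal.ofReal (N : ℝ) := by rw [ENNReal.ofReal_natCast]
    calc (N : ℝ≥0∞) * (C * ENNReal.ofReal (1 / ((n : ℝ) + 1) ^ 4))
        = C * (ENNReal.ofReal (N : ℝ) * ENNReal.ofReal (1 / ((n : ℝ) + 1) ^ 4)) := by
          rw [e3]; ring
      _ = C * ENNReal.ofReal ((N : ℝ) * (1 / ((n : ℝ) + 1) ^ 4)) := by
          rw [← ENNReal.ofReal_mul (Nat.cast_nonneg N)]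
      _ ≤ C * ENNReal.ofReal ((2 * (R₀ : ℝ) + 1) * (1 / ((n : ℝ) + 1) ^ 2)) := by
          gcongr C * ENNReal.ofReal ?_
          calc (N : ℝ) * (1 / ((n : ℝ) + 1) ^ 4)
              ≤ ((2 * R₀ + 1) * ((n : ℝ) + 1) ^ 2) * (1 / ((n : ℝ) + 1) ^ 4) := by gcongr
            _ = (2 * (R₀ : ℝ) + 1) * (1 / ((n : ℝ) + 1) ^ 2) := by field_simp
  refine lt_of_le_of_lt (ENNReal.tsum_le_tsum hterm) ?_
  rw [ENNReal.tsum_mul_left]
  exact ENNReal.mul_lt_top (lt_top_iff_ne_top.2 hC)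
    (lt_top_iff_ne_top.2 (PSUM.summ R₀).tsum_ofReal_ne_top)

end Pool.Agent.R244.WGF
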