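import Pool.Agent.R244.WGF.Stm

set_option autoImplicit false

namespace Pool.Agent.R244.WGF

open MeasureTheory Set Metric Topology Filter

namespace WB

theorem term_eq (b : ℕ) (α : ℝ) (k : ℕ) :
    (b : ℝ) ^ (-(α * k)) = ((b : ℝ) ^ (-α)) ^ k := by
  rw [← Real.rpow_natCast, ← Real.rpow_mul (Nat.cast_nonneg b)]
  congr 1
  ring

theorem r_pos (b : ℕ) (α : ℝ) (hb : 2 ≤ b) : 0 < (b : ℝ) ^ (-α) :=
  Real.rpow_pos_of_pos (by positivity) _

theorem r_lt (b : ℕ) (α : ℝ) (hb : 2 ≤ b) (hα : 0 < α) : (b : ℝ) ^ (-α) < 1 := by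
  refine Real.rpow_lt_one_of_one_lt_of_neg ?_ (by linarith)
  have : (2 : ℝ) ≤ b := by exact_mod_cast hb
  linarith

theorem bound (b : ℕ) (α : ℝ) (hb : 2 ≤ b) (g : ℝ → ℝ) (B : ℝ) (hB : ∀ x, |g x| ≤ B)
    (k : ℕ) (x : ℝ) :
    ‖(b : ℝ) ^ (-(α * k)) * g ((b : ℝ) ^ k * x)‖ ≤ ((b : ℝ) ^ (-α)) ^ k * B := by
  rw [term_eq, norm_mul, Real.norm_of_nonneg (pow_pos (r_pos b α hb) k).le, Real.norm_eq_abs]
  exact mul_le_mul_of_nonneg_left (hB _) (pow_pos (r_pos b α hb) k).le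

theorem summ_bd (b : ℕ) (α : ℝ) (hb : 2 ≤ b) (hα : 0 < α) (B : ℝ) :
    Summable (fun k : ℕ => ((b : ℝ) ^ (-α)) ^ k * B) :=
  (summable_geometric_of_lt_one (r_pos b α hb).le (r_lt b α hb hα)).mul_right B

theorem exB {g : ℝ → ℝ} (hg : g ∈ lipSub) : ∃ B : ℝ, ∀ x, |g x| ≤ B := by
  obtain ⟨B, hB⟩ := bdd1 hg
  exact ⟨B, fun x => hB ⟨x, rfl⟩⟩

theorem summ (b : ℕ) (α : ℝ) (hb : 2 ≤ b) (hα : 0 < α) (g : ℝ → ℝ) (hg : g ∈ lipSub) (x : ℝ) :
    Summable (fun k : ℕ => (b : ℝ) ^ (-(α * k)) * g ((b : ℝ) ^ k * x)) := by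
  obtain ⟨B, hB⟩ := exB hg
  exact Summable.of_norm_bounded (summ_bd b α hb hα B) (fun k => bound b α hb g B hB k x)

end WB

open WB in
theorem t_WB : S_WB := by
  intro b α hb hα
  refine ⟨?_, ?_, ?_, ?_⟩
  · intro g hg
    obtain ⟨B, hB⟩ := exB hg
    have hc : Continuous g := by
      obtain ⟨_, C, hC⟩ := hg
      exact hC.continuous
    unfold W
    refine continuous_tsum (fun k => ?_) (summ_bd b α hb hα B) (fun k x => bound b α hb g B hB k x)
    exact continuous_const.mul (hc.comp (continuous_const.mul continuous_id))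
  · intro g hg h hh x
    unfold W
    rw [← (summ b α hb hα g hg x).tsum_add (summ b α hb hα h hh x)]
    refine tsum_congr (fun k => ?_)
    rw [Pi.add_apply, mul_add]
  · refine ⟨(1 - (b : ℝ) ^ (-α))⁻¹, ?_, ?_⟩
    · rw [inv_nonneg]
      linarith [r_lt b α hb hα]
    · intro g hg B hB x
      unfold W
      have h1 := tsum_of_norm_bounded (summ_bd b α hb hα B).hasSum
        (fun k => bound b α hb g B hB k x)
      rw [tsum_mul_right, tsum_geometric_of_lt_one (r_pos b α hb).le (r_lt b α hb hα)] at h1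
      exact h1
  · intro g hg h hh x
    unfold W
    rw [← (summ b α hb hα g hg x).tsum_sub (summ b α hb hα h hh x)]
    refine tsum_congr (fun k => ?_)
    rw [Pi.sub_apply, mul_sub]

end Pool.Agent.R244.WGF
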