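import Pool.Agent.R244.WGF.Defs

namespace Pool.Agent.R244.WGF

open MeasureTheory Set Metric Topology Filter
open scoped ENNReal NNReal Classical

/-- Coefficient distributions with fast decay of the characteristic function. -/
def S_RHO : Prop := ∀ R : ℕ, ∃ ρ : Measure unitInterval, IsProbabilityMeasure ρ ∧
  ∃ C : ℝ, ∀ s : ℝ, s ≠ 0 →
    ‖∫ x, Complex.exp (Complex.I * ((s * (x : ℝ) : ℝ) : ℂ)) ∂ρ‖ ≤ C / |s| ^ R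

/-- Freezing all coefficients but one. -/
def S_FREE : Prop := ∀ (ρ : Measure unitInterval) [IsProbabilityMeasure ρ] (i₀ : ℕ × ℕ)
  (A : Om → ℝ) (s : ℝ), Measurable A → (∀ c v, A (Function.update c i₀ v) = A c) →
  ‖∫ c, Complex.exp (Complex.I * ((A c + s * (c i₀ : ℝ) : ℝ) : ℂ)) ∂PP ρ‖ ≤
    ‖∫ x, Complex.exp (Complex.I * ((s * (x : ℝ) : ℝ) : ℂ)) ∂ρ‖

/-- Counting words with linked letters. -/
def S_CNT : Prop := ∀ (b : ℕ) (X : Type) [Fintype X] [LinearOrder X] (Vs : Finset X) (f : X → X),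
  1 ≤ b → (∀ v ∈ Vs, f v ≠ v) →
  (Fintype.card {w : X → Fin b // ∀ v ∈ Vs, w v = w (f v)}) ^ 2 * b ^ Vs.card ≤
    b ^ (2 * Fintype.card X)

/-- Volume of the bad configurations. -/
def S_BAD : Prop := ∀ b q k m P : ℕ, 2 ≤ b → 1 ≤ k → q * k ≤ P →
  volume (Bad b q k (2 * m) P) ≤
    ENNReal.ofReal ((((P * (2 * m) : ℕ) : ℝ)) ^ (q * (2 * m)) * ((b : ℝ) ^ (m * q * k))⁻¹)

/-- The exceptional points are negligible. -/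
def S_EK : Prop := ∀ b q : ℕ, 2 ≤ b → (∀ K, MeasurableSet (E b q K)) ∧
  volume (Ico (0 : ℝ) 1 \ ⋃ K, E b q K) = 0

/-- Basic facts on the Weierstrass function. -/
def S_WB : Prop := ∀ (b : ℕ) (α : ℝ), 2 ≤ b → 0 < α →
  (∀ g ∈ lipSub, Continuous (W b α g)) ∧
  (∀ g ∈ lipSub, ∀ h ∈ lipSub, ∀ x, W b α (g + h) x = W b α g x + W b α h x) ∧
  (∃ C : ℝ, 0 ≤ C ∧ ∀ g ∈ lipSub, ∀ B : ℝ, (∀ x, |g x| ≤ B) → ∀ x, |W b α g x| ≤ C * B) ∧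
  (∀ g ∈ lipSub, ∀ h ∈ lipSub, ∀ x, W b α (g - h) x = W b α g x - W b α h x)

/-- The random Lipschitz function. -/
def S_RND : Prop := ∀ b : ℕ, 2 ≤ b → ∃ G : Om → Lip, Continuous G ∧ ∀ c, (G c).1 = rnd b c

/-- Dependence on one coefficient. -/
def S_COEF : Prop := ∀ (b : ℕ) (α : ℝ), 2 ≤ b → 0 < α → ∀ (c : Om) (k u : ℕ) (v : unitInterval)
  (x : ℝ), W b α (rnd b (Function.update c (k, u) v)) x =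
    W b α (rnd b c) x + ((v : ℝ) - (c (k, u) : ℝ)) / ((k : ℝ) + 1) ^ 2 * V b α k u x

/-- Good configurations are sensitive to some coefficient. -/
def S_GOOD : Prop := ∀ (b : ℕ) (α : ℝ) (q M : ℕ), 2 ≤ b → 0 < α → ∃ p₀ : ℕ, q ≤ p₀ ∧
  ∀ (k : ℕ), 1 ≤ k → ∀ (x ε : Fin M → ℝ), (∀ j, |ε j| = 1) →
    (∀ j, x j ∈ Ico (0 : ℝ) 1 ∧ ∀ l, l < q →
      ((b : ℝ) ^ (2 * k))⁻¹ ≤ tent b k ((b : ℝ) ^ (l * k) * x j)) →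
    x ∉ Bad b q k M (p₀ * k) → ∃ u : ℕ,
      (b : ℝ) ^ (-(α * (q * k))) * ((b : ℝ) ^ (2 * k))⁻¹ / 2 ≤ |∑ j, ε j * V b α k u (x j)|

/-- The moment bound. -/
def S_MOM : Prop := ∀ (b : ℕ) (α : ℝ) (q m R : ℕ) (ρ : Measure unitInterval)
  [IsProbabilityMeasure ρ] (C : ℝ), 2 ≤ b → 0 < α →
  (∀ s : ℝ, s ≠ 0 →
    ‖∫ x, Complex.exp (Complex.I * ((s * (x : ℝ) : ℝ) : ℂ)) ∂ρ‖ ≤ C / |s| ^ R) →
  ∃ p₀ : ℕ, q ≤ p₀ ∧ ∀ k K : ℕ, 1 ≤ k → K ≤ k → ∀ g₀ ∈ lipSub, ∀ t n : ℝ, 0 < n →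
    ∫⁻ c, ‖FC b α (E b q K) (g₀ + rnd b c) t n‖ₑ ^ (2 * m) ∂PP ρ ≤
      volume (Bad b q k (2 * m) (p₀ * k)) + ENNReal.ofReal (C /
        (n / ((k : ℝ) + 1) ^ 2 * ((b : ℝ) ^ (-(α * (q * k))) * ((b : ℝ) ^ (2 * k))⁻¹ / 2)) ^ R)

/-- Polynomial decay of the moments. -/
def S_DEC : Prop := ∀ (b : ℕ) (α : ℝ), 2 ≤ b → 0 < α → α < 1 →
  ∃ (ρ : Measure unitInterval) (_ : IsProbabilityMeasure ρ) (q m : ℕ) (s : ℝ),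
    1 ≤ m ∧ 1 / 2 < s ∧ ∀ K : ℕ, ∃ C : ℝ≥0∞, C ≠ ⊤ ∧ ∀ g₀ ∈ lipSub, ∀ t : ℝ, ∀ n : ℕ, 1 ≤ n →
      ∫⁻ c, ‖FC b α (E b q K) (g₀ + rnd b c) t n‖ₑ ^ (2 * m) ∂PP ρ ≤
        C * ENNReal.ofReal ((n : ℝ) ^ (-(2 * m * s + 4)))

/-- Measurability. -/
def S_MEAS : Prop := ∀ (b : ℕ) (α : ℝ) (q m : ℕ) (s : ℝ) (K R₀ : ℕ), 2 ≤ b → 0 < α →
  @Measurable Lip ℝ≥0∞ (borel Lip) _ (fun g : Lip => SS b α q m s K R₀ g.1)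

/-- The random sum is finite. -/
def S_SUM : Prop := ∀ (b : ℕ) (α : ℝ) (q m : ℕ) (s : ℝ) (K R₀ : ℕ) (ρ : Measure unitInterval)
  [IsProbabilityMeasure ρ] (C : ℝ≥0∞) (g₀ : ℝ → ℝ), 2 ≤ b → 0 < α → 1 ≤ m → C ≠ ⊤ → g₀ ∈ lipSub →
  (∀ t : ℝ, ∀ n : ℕ, 1 ≤ n →
    ∫⁻ c, ‖FC b α (E b q K) (g₀ + rnd b c) t n‖ₑ ^ (2 * m) ∂PP ρ ≤
      C * ENNReal.ofReal ((n : ℝ) ^ (-(2 * m * s + 4)))) →
  ∫⁻ c, SS b α q m s K R₀ (g₀ + rnd b c) ∂PP ρ < ⊤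

/-- Square summability of the Fourier coefficients in every direction. -/
def S_SQ : Prop := ∀ (b : ℕ) (α : ℝ) (q m : ℕ) (s : ℝ) (K : ℕ) (g : ℝ → ℝ), 2 ≤ b → 0 < α →
  1 ≤ m → 1 / 2 < s → g ∈ lipSub → (∀ R₀ : ℕ, SS b α q m s K R₀ g < ⊤) →
  ∀ t : ℝ, Summable (fun n : ℕ => ‖FC b α (E b q K) g t n‖ ^ 2)

/-- Absolute continuity from square summable Fourier coefficients. -/
def S_AC : Prop := ∀ (F : ℝ → ℝ) (A : Set ℝ), Measurable F → MeasurableSet A → A ⊆ Ico 0 1 →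
  Summable (fun n : ℕ => ‖∫ x in A, Complex.exp (Complex.I * ((n * F x : ℝ) : ℂ))‖ ^ 2) →
  (volume.restrict A).map F ≪ volume

/-- The set of bad functions. -/
def BadG (b : ℕ) (α : ℝ) : Set Lip :=
  {g : Lip | ¬ ∀ θ : ℝ, (volume.restrict (Ico (0 : ℝ) 1)).map
    (fun x => x * Real.cos θ + W b α g.1 x * Real.sin θ) ≪ volume}

/-- The main theorem. -/
def S_MAIN : Prop := ∀ (b : ℕ) (α : ℝ), 2 ≤ b → 0 < α → α < 1 → Shy (BadG b α)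

end Pool.Agent.R244.WGF
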